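import Pool.Agent.H917Z.HIF.St
import Pool.Agent.Helper446.Comp

set_option autoImplicit false

namespace Pool.Agent.H917Z.HIF

open Encodable Nat.Partrec Denumerable

attribute [fun_prop] Primrec

section basic

variable {α β γ : Type*} [Primcodable α] [Primcodable β] [Primcodable γ]

@[fun_prop] theorem pid : Primrec (fun x : α => x) := Primrec.id
@[fun_prop] theorem pconst (b : β) : Primrec (fun _ : α => b) := Primrec.const b
@[fun_prop] theorem pcomp {f : β → γ} {g : α → β} (hf : Primrec f) (hg : Primrec g) :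
    Primrec (fun x => f (g x)) := hf.comp hg
@[fun_prop] theorem pfst {f : α → β × γ} (hf : Primrec f) :
    Primrec (fun x => (f x).1) := Primrec.fst.comp hf
@[fun_prop] theorem psnd {f : α → β × γ} (hf : Primrec f) :
    Primrec (fun x => (f x).2) := Primrec.snd.comp hf
@[fun_prop] theorem ppair {f : α → β} {g : α → γ} (hf : Primrec f) (hg : Primrec g) :
    Primrec (fun x => (f x, g x)) := hf.pair hg
@[fun_prop] theorem padd {f g : α → ℕ} (hf : Primrec f) (hg : Primrec g) :
    Primrec (fun x => f x + g x) := Primrec.nat_add.comp hf hg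
@[fun_prop] theorem pappend {f g : α → List β} (hf : Primrec f) (hg : Primrec g) :
    Primrec (fun x => f x ++ g x) := Primrec.list_append.comp hf hg
@[fun_prop] theorem pcons {f : α → β} {g : α → List β} (hf : Primrec f) (hg : Primrec g) :
    Primrec (fun x => f x :: g x) := Primrec.list_cons.comp hf hg
@[fun_prop] theorem plength {f : α → List β} (hf : Primrec f) :
    Primrec (fun x => (f x).length) := Primrec.list_length.comp hf
@[fun_prop] theorem pencode {f : α → β} (hf : Primrec f) :
    Primrec (fun x => encode (f x)) := Primrec.encode.comp hf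
@[fun_prop] theorem pdecode {f : α → ℕ} (hf : Primrec f) :
    Primrec (fun x => (decode (f x) : Option β)) := Primrec.decode.comp hf
@[fun_prop] theorem pgetD {f : α → Option β} {g : α → β} (hf : Primrec f) (hg : Primrec g) :
    Primrec (fun x => (f x).getD (g x)) := Primrec.option_getD.comp hf hg
@[fun_prop] theorem pnot {f : α → Bool} (hf : Primrec f) :
    Primrec (fun x => !(f x)) := Primrec.not.comp hf
@[fun_prop] theorem pdrop {f : α → List β} {g : α → ℕ} (hf : Primrec f) (hg : Primrec g) :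
    Primrec (fun x => (f x).drop (g x)) := Primrec.list_drop.comp hg hf
@[fun_prop] theorem ptake {f : α → List β} {g : α → ℕ} (hf : Primrec f) (hg : Primrec g) :
    Primrec (fun x => (f x).take (g x)) := Primrec.list_take.comp hg hf
@[fun_prop] theorem prange {g : α → ℕ} (hg : Primrec g) :
    Primrec (fun x => List.range (g x)) := Primrec.list_range.comp hg
@[fun_prop] theorem pofNat {g : α → ℕ} (hg : Primrec g) :
    Primrec (fun x => ofNat Code (g x)) := (Primrec.ofNat Code).comp hg
@[fun_prop] theorem pcpair {f g : α → Code} (hf : Primrec f) (hg : Primrec g) :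
    Primrec (fun x => Code.pair (f x) (g x)) := Code.primrec₂_pair.comp hf hg
@[fun_prop] theorem pccomp {f g : α → Code} (hf : Primrec f) (hg : Primrec g) :
    Primrec (fun x => Code.comp (f x) (g x)) := Code.primrec₂_comp.comp hf hg
@[fun_prop] theorem pcprec {f g : α → Code} (hf : Primrec f) (hg : Primrec g) :
    Primrec (fun x => Code.prec (f x) (g x)) := Code.primrec₂_prec.comp hf hg
@[fun_prop] theorem pcrfind {f : α → Code} (hf : Primrec f) :
    Primrec (fun x => Code.rfind' (f x)) := Code.primrec_rfind'.comp hf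

@[fun_prop] theorem prr {f g h : α → Str} (hf : Primrec f) (hg : Primrec g) (hh : Primrec h) :
    Primrec (fun x => rr (f x) (g x) (h x)) :=
  Primrec.ite (Primrec.eq.comp hh hf) hg hh

@[fun_prop] theorem prem {f : α → Str} {g : α → List Str} (hf : Primrec f) (hg : Primrec g) :
    Primrec (fun x => rem (f x) (g x)) := by
  have h : Primrec fun x => (g x).filterMap (fun y => if y = f x then none else some y) :=
    Primrec.listFilterMap hg (Primrec.ite (Primrec.eq.comp Primrec.snd (hf.comp Primrec.fst))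
      (Primrec.const none) (Primrec.option_some.comp Primrec.snd)).to₂
  refine h.of_eq fun x => ?_
  unfold rem
  induction g x with
  | nil => rfl
  | cons a l ih => by_cases h : a = f x <;> simp [h, List.filterMap_cons, ih]

theorem pfirst {p : α → Str → Bool} {g : α → List Str} (hp : Primrec fun x : α × Str => p x.1 x.2)
    (hg : Primrec g) : Primrec (fun x => first (p x) (g x)) :=
  Primrec.list_getElem?.comp hg (Primrec.list_findIdx hg hp.to₂)

@[fun_prop] theorem pcands {f : α → ℕ} {g : α → List Str} (hf : Primrec f) (hg : Primrec g) :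
    Primrec (fun x => cands (f x) (g x)) := by
  unfold cands
  refine Primrec.list_flatMap hg (Primrec.to₂ (f := fun z : α × Str => (List.range (f z.1)).map
    fun m => z.2 ++ ((decode (α := Str) m).getD []).drop z.2.length) ?_)
  refine Primrec.list_map (by fun_prop) (Primrec.to₂ (f := fun w : (α × Str) × ℕ =>
    w.1.2 ++ ((decode (α := Str) w.2).getD []).drop w.1.2.length) ?_)
  fun_prop

end basic

/-- an initial segment of `y` has entered the `n`-th column of the `e`-th r.e. set by stage `s` -/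
def cov (e n s : ℕ) (y : Str) : Bool :=
  decide (0 < ((List.range (y.length + 1)).filterMap fun k =>
    Code.evaln s (ofNat Code e) (encode (n, y.take k))).length)

theorem cov_iff {e n s : ℕ} {y : Str} : cov e n s y = true ↔
    ∃ k ≤ y.length, Pool.Agent.Helper446.RE.wst (ℕ × Str) e s (n, y.take k) = true := by
  unfold cov Pool.Agent.Helper446.RE.wst
  rw [decide_eq_true_iff, List.length_pos_iff_exists_mem]
  constructor
  · rintro ⟨a, ha⟩
    obtain ⟨k, hk, h⟩ := List.mem_filterMap.1 ha
    exact ⟨k, Nat.lt_succ_iff.1 (List.mem_range.1 hk), by rw [h]; rfl⟩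
  · rintro ⟨k, hk, h⟩
    obtain ⟨a, ha⟩ := Option.isSome_iff_exists.1 h
    exact ⟨a, List.mem_filterMap.2 ⟨k, List.mem_range.2 (Nat.lt_succ_iff.2 hk), ha⟩⟩

theorem cov_s (e n s s' : ℕ) (y : Str) (h : s ≤ s') (h1 : cov e n s y = true) :
    cov e n s' y = true := by
  obtain ⟨k, hk, h2⟩ := cov_iff.1 h1
  exact cov_iff.2 ⟨k, hk, Pool.Agent.Helper446.RE.wst_mono h h2⟩

theorem cov_y (e n s : ℕ) (y y' : Str) (h : y <+: y') (h1 : cov e n s y = true) :
    cov e n s y' = true := by
  obtain ⟨k, hk, h2⟩ := cov_iff.1 h1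
  obtain ⟨u, rfl⟩ := h
  refine cov_iff.2 ⟨k, by simp only [List.length_append]; omega, ?_⟩
  rwa [List.take_append_of_le_length hk]

@[fun_prop] theorem pcov {α : Type*} [Primcodable α] {e n s : α → ℕ} {y : α → Str}
    (he : Primrec e) (hn : Primrec n) (hs : Primrec s) (hy : Primrec y) :
    Primrec fun x => cov (e x) (n x) (s x) (y x) := by
  unfold cov
  have h1 : Primrec fun z : α × ℕ =>
      Code.evaln (s z.1) (ofNat Code (e z.1)) (encode (n z.1, (y z.1).take z.2)) :=
    Code.primrec_evaln.comp (g := fun z : α × ℕ =>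
      ((s z.1, ofNat Code (e z.1)), encode (n z.1, (y z.1).take z.2))) (by fun_prop)
  have h2 : Primrec fun x => ((List.range ((y x).length + 1)).filterMap fun k =>
      Code.evaln (s x) (ofNat Code (e x)) (encode (n x, (y x).take k))).length :=
    Primrec.list_length.comp (Primrec.listFilterMap (by fun_prop) h1.to₂)
  exact (Primrec.nat_lt.comp (Primrec.const 0) h2).decide

/-- labels as codes -/
def mk {α : Type} [Primcodable α] (a : α) : Code := ofNat Code (encode a)

/-- reading labels -/
def dc (α : Type) [Primcodable α] [Inhabited α] (c : Code) : α :=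
  (decode (α := α) (encode c)).getD default

@[simp] theorem dc_mk {α : Type} [Primcodable α] [Inhabited α] (a : α) : dc α (mk a) = a := by
  simp [dc, mk]

@[fun_prop] theorem pmk {α : Type*} {β : Type} [Primcodable α] [Primcodable β] {f : α → β}
    (hf : Primrec f) : Primrec fun x => mk (f x) := by
  unfold mk; fun_prop

@[fun_prop] theorem pdc {α : Type*} {β : Type} [Primcodable α] [Primcodable β] [Inhabited β]
    {f : α → Code} (hf : Primrec f) : Primrec fun x => dc β (f x) := by
  unfold dc; fun_prop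

/-- codes of states -/
def toC : St → Code
  | .base e τ => .rfind' (mk (e, τ))
  | .nA e n t inf => .pair (mk (e, n, t)) (toC inf)
  | .nB e n t inf b fin => .comp (.prec (mk ((e, n, t), b)) (toC inf)) (toC fin)

/-- components of a `prec` code -/
noncomputable def parts (c : Code) : Code × Code :=
  Code.recOn c (.zero, .zero) (.zero, .zero) (.zero, .zero) (.zero, .zero)
    (fun _ _ _ _ => (.zero, .zero)) (fun _ _ _ _ => (.zero, .zero)) (fun a b _ _ => (a, b))
    (fun _ _ => (.zero, .zero))

@[fun_prop] theorem pparts {α : Type*} [Primcodable α] {f : α → Code} (hf : Primrec f) :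
    Primrec fun x => parts (f x) :=
  Code.primrec_recOn (σ := Code × Code) hf (z := fun _ => (.zero, .zero))
    (s := fun _ => (.zero, .zero)) (l := fun _ => (.zero, .zero)) (r := fun _ => (.zero, .zero))
    (pr := fun _ _ _ _ _ => (.zero, .zero)) (co := fun _ _ _ _ _ => (.zero, .zero))
    (pc := fun _ a b _ _ => (a, b)) (rf := fun _ _ _ => (.zero, .zero))
    (by fun_prop) (by fun_prop) (by fun_prop) (by fun_prop) (by fun_prop) (by fun_prop)
    (by fun_prop) (by fun_prop)

/-- leaves on codes -/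
noncomputable def leavesC (c : Code) : List Str :=
  Code.recOn c [] [] [] []
    (fun a _ _ hb => (dc (ℕ × ℕ × Str) a).2.2 :: hb)
    (fun a _ ha hb => (dc ((ℕ × ℕ × Str) × Str) (parts a).1).1.2.2 ::
      (rem (dc ((ℕ × ℕ × Str) × Str) (parts a).1).2 ha ++ hb))
    (fun _ _ _ hb => hb)
    (fun a _ => [(dc (ℕ × Str) a).2])

@[fun_prop] theorem pleavesC {α : Type*} [Primcodable α] {f : α → Code} (hf : Primrec f) :
    Primrec fun x => leavesC (f x) :=
  Code.primrec_recOn (σ := List Str) hf (z := fun _ => [])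
    (s := fun _ => []) (l := fun _ => []) (r := fun _ => [])
    (pr := fun _ a _ _ hb => (dc (ℕ × ℕ × Str) a).2.2 :: hb)
    (co := fun _ a _ ha hb => (dc ((ℕ × ℕ × Str) × Str) (parts a).1).1.2.2 ::
      (rem (dc ((ℕ × ℕ × Str) × Str) (parts a).1).2 ha ++ hb))
    (pc := fun _ _ _ _ hb => hb) (rf := fun _ a _ => [(dc (ℕ × Str) a).2])
    (by fun_prop) (by fun_prop) (by fun_prop) (by fun_prop) (by fun_prop) (by fun_prop)
    (by fun_prop) (by fun_prop)

theorem leavesC_toC (x : St) : leavesC (toC x) = x.leaves := by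
  induction x with
  | base e τ =>
    show [(dc (ℕ × Str) (mk (e, τ))).2] = _
    simp [St.leaves]
  | nA e n t inf ih =>
    show (dc (ℕ × ℕ × Str) (mk (e, n, t))).2.2 :: leavesC (toC inf) = _
    simp [St.leaves, ih]
  | nB e n t inf b fin ih1 ih2 =>
    show (dc ((ℕ × ℕ × Str) × Str) (mk ((e, n, t), b))).1.2.2 ::
      (rem (dc ((ℕ × ℕ × Str) × Str) (mk ((e, n, t), b))).2 (leavesC (toC inf)) ++
        leavesC (toC fin)) = _
    simp [St.leaves, ih1, ih2]

/-- replacement on codes -/
noncomputable def replC (τ ρ : Str) (c : Code) : Code :=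
  Code.recOn c .zero .zero .zero .zero
    (fun a _ _ hb => .pair (mk ((dc (ℕ × ℕ × Str) a).1, (dc (ℕ × ℕ × Str) a).2.1,
      rr τ ρ (dc (ℕ × ℕ × Str) a).2.2)) hb)
    (fun a _ ha hb => .comp (.prec (mk (((dc ((ℕ × ℕ × Str) × Str) (parts a).1).1.1,
      (dc ((ℕ × ℕ × Str) × Str) (parts a).1).1.2.1,
      rr τ ρ (dc ((ℕ × ℕ × Str) × Str) (parts a).1).1.2.2),
      (dc ((ℕ × ℕ × Str) × Str) (parts a).1).2))
      (if τ = (dc ((ℕ × ℕ × Str) × Str) (parts a).1).2 then (parts a).2 else ha)) hb)
    (fun _ _ _ hb => hb)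
    (fun a _ => .rfind' (mk ((dc (ℕ × Str) a).1, rr τ ρ (dc (ℕ × Str) a).2)))

@[fun_prop] theorem preplC {α : Type*} [Primcodable α] {τ ρ : α → Str} {f : α → Code}
    (hτ : Primrec τ) (hρ : Primrec ρ) (hf : Primrec f) :
    Primrec fun x => replC (τ x) (ρ x) (f x) :=
  Code.primrec_recOn (σ := Code) hf (z := fun _ => .zero)
    (s := fun _ => .zero) (l := fun _ => .zero) (r := fun _ => .zero)
    (pr := fun x a _ _ hb => .pair (mk ((dc (ℕ × ℕ × Str) a).1, (dc (ℕ × ℕ × Str) a).2.1,
      rr (τ x) (ρ x) (dc (ℕ × ℕ × Str) a).2.2)) hb)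
    (co := fun x a _ ha hb => .comp (.prec (mk (((dc ((ℕ × ℕ × Str) × Str) (parts a).1).1.1,
      (dc ((ℕ × ℕ × Str) × Str) (parts a).1).1.2.1,
      rr (τ x) (ρ x) (dc ((ℕ × ℕ × Str) × Str) (parts a).1).1.2.2),
      (dc ((ℕ × ℕ × Str) × Str) (parts a).1).2))
      (if τ x = (dc ((ℕ × ℕ × Str) × Str) (parts a).1).2 then (parts a).2 else ha)) hb)
    (pc := fun _ _ _ _ hb => hb)
    (rf := fun x a _ => .rfind' (mk ((dc (ℕ × Str) a).1, rr (τ x) (ρ x) (dc (ℕ × Str) a).2)))
    (by fun_prop) (by fun_prop) (by fun_prop) (by fun_prop) (by fun_prop)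
    (pccomp (pcprec (by fun_prop) (Primrec.ite (Primrec.eq.comp (by fun_prop) (by fun_prop))
      (by fun_prop) (by fun_prop))) (by fun_prop))
    (by fun_prop) (by fun_prop)

theorem replC_toC (τ ρ : Str) (x : St) : replC τ ρ (toC x) = toC (x.repl τ ρ) := by
  induction x with
  | base e u =>
    show Code.rfind' (mk ((dc (ℕ × Str) (mk (e, u))).1, rr τ ρ (dc (ℕ × Str) (mk (e, u))).2)) = _
    simp [St.repl, toC]
  | nA e n t inf ih =>
    show Code.pair (mk ((dc (ℕ × ℕ × Str) (mk (e, n, t))).1,
      (dc (ℕ × ℕ × Str) (mk (e, n, t))).2.1,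
      rr τ ρ (dc (ℕ × ℕ × Str) (mk (e, n, t))).2.2)) (replC τ ρ (toC inf)) = _
    simp [St.repl, toC, ih]
  | nB e n t inf b fin ih1 ih2 =>
    show Code.comp (.prec (mk (((dc ((ℕ × ℕ × Str) × Str) (mk ((e, n, t), b))).1.1,
      (dc ((ℕ × ℕ × Str) × Str) (mk ((e, n, t), b))).1.2.1,
      rr τ ρ (dc ((ℕ × ℕ × Str) × Str) (mk ((e, n, t), b))).1.2.2),
      (dc ((ℕ × ℕ × Str) × Str) (mk ((e, n, t), b))).2))
      (if τ = (dc ((ℕ × ℕ × Str) × Str) (mk ((e, n, t), b))).2 then toC inf
        else replC τ ρ (toC inf))) (replC τ ρ (toC fin)) = _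
    simp only [dc_mk, St.repl, toC, ih1, ih2]
    split_ifs <;> rfl

/-- visit to a state that is not waiting -/
noncomputable def stA (s : ℕ) (l : ℕ × ℕ × Str) (b hb : Code) : Code :=
  Option.casesOn (first (fun y => !cov l.1 l.2.1 s y) (leavesC b))
    (.pair (mk (l.1, l.2.1 + 1, l.2.2)) hb)
    (fun y => .comp (.prec (mk (l, y)) b) (.rfind' (mk (l.1 + 1, y))))

@[fun_prop] theorem pstA {α : Type*} [Primcodable α] {s : α → ℕ} {l : α → ℕ × ℕ × Str}
    {b hb : α → Code} (h1 : Primrec s) (h2 : Primrec l) (h3 : Primrec b) (h4 : Primrec hb) :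
    Primrec fun x => stA (s x) (l x) (b x) (hb x) :=
  Primrec.option_casesOn (pfirst (p := fun x y => !cov (l x).1 (l x).2.1 (s x) y) (by fun_prop)
    (by fun_prop)) (by fun_prop)
    (Primrec.to₂ (f := fun z : α × Str => Code.comp (.prec (mk (l z.1, z.2)) (b z.1))
      (.rfind' (mk ((l z.1).1 + 1, z.2)))) (by fun_prop))

/-- visit to a waiting state -/
noncomputable def stB (s : ℕ) (l : (ℕ × ℕ × Str) × Str) (a b hb : Code) : Code :=
  Option.casesOn (first (fun y => cov l.1.1 l.1.2.1 s y) (cands s (leavesC b)))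
    (.comp a hb)
    (fun ρ => .pair (mk l.1) (replC l.2 ρ (parts a).2))

@[fun_prop] theorem pstB {α : Type*} [Primcodable α] {s : α → ℕ} {l : α → (ℕ × ℕ × Str) × Str}
    {a b hb : α → Code} (h1 : Primrec s) (h2 : Primrec l) (h0 : Primrec a) (h3 : Primrec b)
    (h4 : Primrec hb) : Primrec fun x => stB (s x) (l x) (a x) (b x) (hb x) :=
  Primrec.option_casesOn (pfirst (p := fun x y => cov (l x).1.1 (l x).1.2.1 (s x) y)
    (by fun_prop) (by fun_prop)) (by fun_prop)
    (Primrec.to₂ (f := fun z : α × Str => Code.pair (mk (l z.1).1)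
      (replC (l z.1).2 z.2 (parts (a z.1)).2)) (by fun_prop))

/-- one visit, on codes -/
noncomputable def stepC (s : ℕ) (c : Code) : Code :=
  Code.recOn c .zero .zero .zero .zero
    (fun a b _ hb => stA s (dc (ℕ × ℕ × Str) a) b hb)
    (fun a b _ hb => stB s (dc ((ℕ × ℕ × Str) × Str) (parts a).1) a b hb)
    (fun _ _ _ _ => .zero)
    (fun a _ => .pair (mk ((dc (ℕ × Str) a).1, 0, (dc (ℕ × Str) a).2 ++ [false]))
      (.rfind' (mk ((dc (ℕ × Str) a).1 + 1, (dc (ℕ × Str) a).2 ++ [true]))))

theorem pstepC {α : Type*} [Primcodable α] {s : α → ℕ} {f : α → Code}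
    (hs : Primrec s) (hf : Primrec f) : Primrec fun x => stepC (s x) (f x) :=
  Code.primrec_recOn (σ := Code) hf (z := fun _ => .zero)
    (s := fun _ => .zero) (l := fun _ => .zero) (r := fun _ => .zero)
    (pr := fun x a b _ hb => stA (s x) (dc (ℕ × ℕ × Str) a) b hb)
    (co := fun x a b _ hb => stB (s x) (dc ((ℕ × ℕ × Str) × Str) (parts a).1) a b hb)
    (pc := fun _ _ _ _ _ => .zero)
    (rf := fun _ a _ => .pair (mk ((dc (ℕ × Str) a).1, 0, (dc (ℕ × Str) a).2 ++ [false]))
      (.rfind' (mk ((dc (ℕ × Str) a).1 + 1, (dc (ℕ × Str) a).2 ++ [true]))))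
    (by fun_prop) (by fun_prop) (by fun_prop) (by fun_prop) (by fun_prop)
    (by fun_prop) (by fun_prop) (by fun_prop)

theorem stepC_toC (s : ℕ) (x : St) : stepC s (toC x) = toC (x.step cov s) := by
  induction x with
  | base e u =>
    show Code.pair (mk ((dc (ℕ × Str) (mk (e, u))).1, 0, (dc (ℕ × Str) (mk (e, u))).2 ++ [false]))
      (.rfind' (mk ((dc (ℕ × Str) (mk (e, u))).1 + 1,
        (dc (ℕ × Str) (mk (e, u))).2 ++ [true]))) = _
    simp [St.step, toC]
  | nA e n t inf ih =>
    show stA s (dc (ℕ × ℕ × Str) (mk (e, n, t))) (toC inf) (stepC s (toC inf)) = _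
    simp only [dc_mk, stA, St.step, leavesC_toC, ih]
    cases first (fun y => !cov e n s y) inf.leaves <;> rfl
  | nB e n t inf b fin ih1 ih2 =>
    show stB s (dc ((ℕ × ℕ × Str) × Str) (mk ((e, n, t), b)))
      (.prec (mk ((e, n, t), b)) (toC inf)) (toC fin) (stepC s (toC fin)) = _
    simp only [dc_mk, stB, St.step, leavesC_toC, ih2]
    cases first (cov e n s) (cands s fin.leaves) with
    | none => rfl
    | some ρ =>
      show Code.pair (mk (e, n, t)) (replC b ρ (toC inf)) = _
      rw [replC_toC]; rfl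

theorem L_prim : Primrec (St.L cov) := by
  have h : Primrec fun s : ℕ => (Nat.rec (toC (.base 0 [])) (fun n c => stepC n c) s : Code) :=
    Primrec.nat_rec₁ (toC (.base 0 [])) (Primrec.to₂ (f := fun z : ℕ × Code => stepC z.1 z.2)
      (pstepC (by fun_prop) (by fun_prop)))
  refine (pleavesC h).of_eq fun s => ?_
  have : (Nat.rec (toC (.base 0 [])) (fun n c => stepC n c) s : Code) = toC (St.glob cov s) := by
    induction s with
    | zero => rfl
    | succ s ih => show stepC s _ = _; rw [ih, stepC_toC]; rfl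
  rw [this, leavesC_toC]; rfl

end Pool.Agent.H917Z.HIF
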