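import Mathlib

/-!
Randomness for continuous measures on Cantor space, moduli, and the class of hyperarithmetic reals.
-/

set_option autoImplicit false

namespace Pool.Agent.H917Z.HIF.Defs

open MeasureTheory Computability

/-- The characteristic function of the real `X`, as an oracle. -/
def orc (X : ℕ → Bool) : ℕ →. ℕ := fun n => Part.some (if X n = true then 1 else 0)

/-- The basic cylinder `[σ]`: the reals extending the string `σ`. -/
def cyl (σ : List Bool) : Set (ℕ → Bool) := {X | (List.range σ.length).map X = σ}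

/-- `S` is recursively enumerable in the real `R` (the relativized form of `REPred`). -/
def REIn {α : Type} [Primcodable α] (R : ℕ → Bool) (S : α → Prop) : Prop :=
  RecursiveIn {orc R} fun a => Part.assert (S a) fun _ => Part.some ()

/-- `R` codes the values of `μ` on cylinders: the relations `a / (c + 1) < μ [σ]` and
`μ [σ] < a / (c + 1)` are r.e. in `R`. -/
def Represents (R : ℕ → Bool) (μ : Measure (ℕ → Bool)) : Prop :=
  REIn R (fun p : List Bool × ℕ × ℕ => (p.2.1 : ℝ) / ((p.2.2 : ℝ) + 1) < μ.real (cyl p.1)) ∧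
  REIn R (fun p : List Bool × ℕ × ℕ => μ.real (cyl p.1) < (p.2.1 : ℝ) / ((p.2.2 : ℝ) + 1))

/-- `V` is a Martin-Loef test for `μ` relative to `R`. -/
def IsTest (R : ℕ → Bool) (μ : Measure (ℕ → Bool)) (V : ℕ → Set (List Bool)) : Prop :=
  REIn R (fun p : ℕ × List Bool => p.2 ∈ V p.1) ∧
  ∀ n, μ.real (⋃ σ ∈ V n, cyl σ) ≤ (1 / 2) ^ n

/-- `X` is Martin-Loef random for `μ` relative to `R`. -/
def RandomRel (R : ℕ → Bool) (μ : Measure (ℕ → Bool)) (X : ℕ → Bool) : Prop :=
  ∀ V, IsTest R μ V → X ∉ ⋂ n, ⋃ σ ∈ V n, cyl σ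

/-- `X` is `μ`-random: random relative to some representation of `μ`. -/
def Random (μ : Measure (ℕ → Bool)) (X : ℕ → Bool) : Prop :=
  ∃ R, Represents R μ ∧ RandomRel R μ X

/-- `X` is not random for any continuous probability measure. -/
def NCR (X : ℕ → Bool) : Prop :=
  ∀ μ : Measure (ℕ → Bool), IsProbabilityMeasure μ → (∀ Y, μ {Y} = 0) → ¬ Random μ X

/-- `f` is a modulus for `X`: every function dominating `f` computes `X`. -/
def IsModulus (f : ℕ → ℕ) (X : ℕ → Bool) : Prop :=
  ∀ g : ℕ → ℕ, (∀ n, f n ≤ g n) → orc X ≤ᵀ fun n => Part.some (g n)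

/-- `X` computes a modulus for `X`. -/
def HasSelfModulus (X : ℕ → Bool) : Prop :=
  ∃ f : ℕ → ℕ, ((fun n => Part.some (f n)) ≤ᵀ orc X) ∧ IsModulus f X

/-- `S` is a (lightface) `Σ¹₁` set of natural numbers, in Kleene normal form. -/
def Sigma11 (S : ℕ → Prop) : Prop :=
  ∃ R : ℕ × List ℕ → Prop, ComputablePred R ∧
    ∀ n, S n ↔ ∃ f : ℕ → ℕ, ∀ k, R (n, (List.range k).map f)

/-- `X` is a `Δ¹₁` (hyperarithmetic) real. -/
def Delta11 (X : ℕ → Bool) : Prop :=
  Sigma11 (fun n => X n = true) ∧ Sigma11 (fun n => ¬ X n = true)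

end Pool.Agent.H917Z.HIF.Defs
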