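import Pool.Agent.H917Z.HIF.Pt

set_option autoImplicit false

namespace Pool.Agent.H917Z.HIF

open Encodable Pool.Agent.Helper446 Pool.Agent.Helper446.Defs Pool.Agent.Helper446.Tree
  Pool.Agent.Helper446.Cls Pool.Agent.Helper446.Oracle Computability Filter

section

variable {α : Type} [Primcodable α]

theorem cp_and {p q : α → Prop} (hp : ComputablePred p) (hq : ComputablePred q) :
    ComputablePred fun a => p a ∧ q a :=
  RE.cp_of_re (RE.and hp.to_re hq.to_re)
    ((RE.or hp.not.to_re hq.not.to_re).of_eq fun _ => not_and_or.symm)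

theorem cp_imp {p q : α → Prop} (hp : ComputablePred p) (hq : ComputablePred q) :
    ComputablePred fun a => p a → q a :=
  RE.cp_of_re ((RE.or hp.not.to_re hq.to_re).of_eq fun _ => imp_iff_not_or.symm)
    ((RE.and hp.to_re hq.not.to_re).of_eq fun _ => Classical.not_imp.symm)

theorem cp_all_lt {p : α → ℕ → Prop} (hp : ComputablePred fun x : α × ℕ => p x.1 x.2)
    {f : α → ℕ} (hf : Computable f) : ComputablePred fun a => ∀ i < f a, p a i := by
  refine RE.cp_of_re (RE.all_lt hp.to_re hf) ?_
  refine (RE.exN (p := fun a i => i < f a ∧ ¬ p a i)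
    (RE.and (RE.lt (by fun_prop) (by fun_prop)) hp.not.to_re)).of_eq fun a => ?_
  push Not
  rfl

end

/-- number of strings of `l` extending `σ` -/
def cnt (σ : Str) (l : List Str) : ℕ := (l.filter fun τ => σ = τ.take σ.length).length

@[fun_prop] theorem ccnt {α : Type*} [Primcodable α] {σ : α → Str} {l : α → List Str}
    (hσ : Computable σ) (hl : Computable l) : Computable fun a => cnt (σ a) (l a) := by
  have h1 : PrimrecRel fun (τ σ : Str) => σ = τ.take σ.length :=
    Primrec.eq.comp (g := fun p : Str × Str => p.1.take p.2.length) Primrec.snd (by fun_prop)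
  exact Computable.list_length.comp (h1.listFilter.to_comp.comp hl hσ)

theorem mem_cnt {σ τ : Str} {l : List Str} :
    τ ∈ (l.filter fun τ => σ = τ.take σ.length) ↔ τ ∈ l ∧ σ <+: τ := by
  rw [List.mem_filter, decide_eq_true_iff, List.prefix_iff_eq_take]

variable {L : ℕ → List Str} {A : ℕ → Bool}

theorem Pt.pre_iff (h : Pt L A) (σ : Str) :
    seg A σ.length = σ ↔ ∀ k, ∃ s₀, ∀ s, s₀ ≤ s → k ≤ cnt σ (L s) := by
  constructor
  · intro hσ k
    have key : ∀ k, ∃ M, ∀ᶠ s in atTop, ∃ F : Finset Str, F.card = k ∧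
        ∀ τ ∈ F, τ ∈ L s ∧ σ <+: τ ∧ ¬ seg A M <+: τ := by
      intro k
      induction k with
      | zero => exact ⟨0, Eventually.of_forall fun s => ⟨∅, rfl, by simp⟩⟩
      | succ k ih =>
        obtain ⟨M, hM⟩ := ih
        obtain ⟨j, hj1, hj2, hj3⟩ := h.s5 (M + σ.length)
        refine ⟨j + 1, ?_⟩
        filter_upwards [hM, eventually_atTop.2 hj3] with s hs1 hs2
        obtain ⟨F, h1, h2⟩ := hs1
        obtain ⟨τ, h3, h4⟩ := hs2
        have h5 : seg A j <+: τ := (List.prefix_append _ _).trans h4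
        have h6 : τ ∉ F := fun hc => (h2 τ hc).2.2 ((seg_prefix A (by omega)).trans h5)
        refine ⟨insert τ F, by rw [Finset.card_insert_of_notMem h6, h1], fun ρ hρ => ?_⟩
        rcases Finset.mem_insert.1 hρ with rfl | hρ
        · refine ⟨h3, ?_, fun hc => ?_⟩
          · rw [← hσ]; exact (seg_prefix A (by omega)).trans h5
          · rw [seg_succ, hj2] at hc
            have := (inc_split (seg A j)).mono h4 hc
            exact this.1 List.prefix_rfl
        · exact ⟨(h2 ρ hρ).1, (h2 ρ hρ).2.1, fun hc =>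
            (h2 ρ hρ).2.2 ((seg_prefix A (by omega)).trans hc)⟩
    obtain ⟨M, hM⟩ := key k
    obtain ⟨s₀, hs₀⟩ := eventually_atTop.1 hM
    refine ⟨s₀, fun s hs => ?_⟩
    obtain ⟨F, h1, h2⟩ := hs₀ s hs
    rw [← h1]
    refine le_trans (Finset.card_le_card ?_) (List.toFinset_card_le _)
    intro τ hτ
    exact List.mem_toFinset.2 (mem_cnt.2 ⟨(h2 τ hτ).1, (h2 τ hτ).2.1⟩)
  · intro hk
    by_contra hσ
    obtain ⟨K, hK⟩ := h.s3 σ.length
    obtain ⟨s₀, hs₀⟩ := hk (K + 1)
    obtain ⟨s, hs, O, h1, h2⟩ := hK s₀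
    have h3 : cnt σ (L s) ≤ O.length := by
      refine (List.subperm_of_subset ((h.nodup s).filter _) fun τ hτ => ?_).length_le
      obtain ⟨h4, h5⟩ := mem_cnt.1 hτ
      rcases h2 τ h4 with h6 | h6
      · exact h6
      · exact absurd ((List.prefix_of_prefix_length_le h6 h5 (by simp)).eq_of_length (by simp)) hσ
    have := hs₀ s hs
    omega

/-- the string coded by the first entry -/
def sg (l : List ℕ) : Str := (decode (α := Str) ((l[0]?).getD 0)).getD []

theorem Pt.sigma (h : Pt L A) (b : Bool) : Defs.Sigma11 fun n => A n = b := by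
  have hL := h.comp
  have hgd : ∀ {α : Type} [Primcodable α] {l : α → List ℕ} {k : α → ℕ}, Computable l →
      Computable k → Computable fun a => ((l a)[k a]?).getD 0 := fun hl hk =>
    Primrec.option_getD.to_comp.comp (by fun_prop) (by fun_prop)
  have hsg : Computable sg :=
    Primrec.option_getD.to_comp.comp (RE.cdecode (hgd RE.cid (by fun_prop))) (by fun_prop)
  refine ⟨fun p => ∀ k < p.2.length, ∀ s < p.2.length, k + 1 < p.2.length →
    (sg p.2)[p.1]? = some b ∧ ((p.2[k + 1]?).getD 0 ≤ s → k ≤ cnt (sg p.2) (L s)), ?_,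
    fun n => ?_⟩
  · refine cp_all_lt (p := fun (p : ℕ × List ℕ) k => ∀ s < p.2.length, k + 1 < p.2.length →
      (sg p.2)[p.1]? = some b ∧ ((p.2[k + 1]?).getD 0 ≤ s → k ≤ cnt (sg p.2) (L s))) ?_
      (by fun_prop)
    refine cp_all_lt (p := fun (x : (ℕ × List ℕ) × ℕ) s => x.2 + 1 < x.1.2.length →
      (sg x.1.2)[x.1.1]? = some b ∧ ((x.1.2[x.2 + 1]?).getD 0 ≤ s →
        x.2 ≤ cnt (sg x.1.2) (L s))) ?_ (by fun_prop)
    refine cp_imp (RE.cp_lt (by fun_prop) (by fun_prop))
      (cp_and (RE.cp_eq (by fun_prop) (by fun_prop))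
        (cp_imp (RE.cp_le (hgd (by fun_prop) (by fun_prop)) (by fun_prop))
          (RE.cp_le (by fun_prop) (by fun_prop))))
  · have hget : ∀ (f : ℕ → ℕ) (N i : ℕ), i < N → (((List.range N).map f)[i]?).getD 0 = f i := by
      intro f N i hi
      simp [hi]
    constructor
    · intro hn
      choose s₀ hs₀ using (h.pre_iff (seg A (n + 1))).1 (by simp)
      refine ⟨fun i => Nat.casesOn i (encode (seg A (n + 1))) s₀, fun N k _ s _ hk => ?_⟩
      simp only [List.length_map, List.length_range] at hk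
      have h1 : sg ((List.range N).map fun i =>
          (Nat.casesOn i (encode (seg A (n + 1))) s₀ : ℕ)) = seg A (n + 1) := by
        unfold sg
        rw [hget _ N 0 (by omega)]
        simp
      dsimp only
      rw [h1, hget _ N (k + 1) hk, seg_getElem? A (by omega), hn]
      exact ⟨rfl, hs₀ k s⟩
    · rintro ⟨f, hf⟩
      have h1 : ∀ N, 0 < N → sg ((List.range N).map f) = (decode (α := Str) (f 0)).getD [] := by
        intro N hN
        unfold sg
        rw [hget f N 0 hN]
      have h2 := (h.pre_iff ((decode (α := Str) (f 0)).getD [])).2 fun k => ⟨f (k + 1),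
        fun s hs => by
          have h3 := (hf (k + s + 2) k (by simp; omega) s (by simp; omega) (by simp)).2
          dsimp only at h3
          rw [h1 _ (by omega), hget f _ (k + 1) (by omega)] at h3
          exact h3 hs⟩
      have h4 := (hf 2 0 (by simp) 0 (by simp) (by simp)).1
      dsimp only at h4
      rw [h1 _ (by omega), ← h2] at h4
      exact seg_get h4

theorem Pt.delta (h : Pt L A) : Defs.Delta11 A :=
  ⟨h.sigma true, by simpa only [Bool.not_eq_true] using h.sigma false⟩

end Pool.Agent.H917Z.HIF
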