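import Pool.Agent.H917Z.HIF.Run
import Pool.Agent.Helper446.Cls

set_option autoImplicit false

namespace Pool.Agent.H917Z.HIF

open St Pool.Agent.Helper446.Defs Pool.Agent.Helper446.Tree Pool.Agent.Helper446.Cls

variable {cov : ℕ → ℕ → ℕ → Str → Bool}

/-- outcome of the requirement of level `e` -/
def Req {e : ℕ} (σ : Str) {σ' : Str} (R' : Run cov (e + 1) σ') : Prop :=
  (∀ n, ∃ s, (∃ τ ∈ L cov s, σ ++ [true] <+: τ) ∧
      ∀ τ ∈ L cov s, σ ++ [true] <+: τ → cov e n s τ = true) ∨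
  ∃ n, ∀ k, first (cov e n (R'.s k)) (cands (R'.s k) (leaves (R'.x k))) = none

variable (hs : ∀ e n s s' y, s ≤ s' → cov e n s y = true → cov e n s' y = true)
  (hy : ∀ e n s y y', y <+: y' → cov e n s y = true → cov e n s y' = true)

include hs hy in
theorem next {e : ℕ} (p : Σ σ, Run cov e σ) :
    ∃ p' : Σ σ, Run cov (e + 1) σ, p.1 ++ [true] <+: p'.1 ∧ Req p.1 p'.2 := by
  by_cases h : {k | p.2.IsExp k}.Finite
  · obtain ⟨σ', h1, R', h2⟩ := p.2.caseB hs hy h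
    exact ⟨⟨σ', R'⟩, h1, Or.inr h2⟩
  · obtain ⟨σ', h1, ⟨R'⟩, h2⟩ := p.2.caseA h
    exact ⟨⟨σ', R'⟩, h1, Or.inl h2⟩

/-- the true path -/
noncomputable def tp : (e : ℕ) → Σ σ, Run cov e σ
  | 0 => ⟨[], run0 cov⟩
  | e + 1 => Classical.choose (next hs hy (tp e))

theorem tp_spec (e : ℕ) : (tp hs hy e).1 ++ [true] <+: (tp hs hy (e + 1)).1 ∧
    Req (tp hs hy e).1 (tp hs hy (e + 1)).2 :=
  Classical.choose_spec (next hs hy (tp hs hy e))

theorem tp_len (e : ℕ) : e ≤ (tp hs hy e).1.length := by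
  induction e with
  | zero => exact Nat.zero_le _
  | succ e ih =>
    have := (tp_spec hs hy e).1.length_le
    simp only [List.length_append, List.length_singleton] at this
    omega

theorem tp_mono {e e' : ℕ} (h : e ≤ e') : (tp hs hy e).1 <+: (tp hs hy e').1 := by
  induction e', h using Nat.le_induction with
  | base => exact List.prefix_rfl
  | succ e' _ ih => exact ih.trans ((List.prefix_append _ _).trans (tp_spec hs hy e').1)

/-- the point -/
noncomputable def pt (i : ℕ) : Bool := ((tp hs hy (i + 1)).1[i]?).getD false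

theorem seg_tp (e : ℕ) : seg (pt hs hy) (tp hs hy e).1.length = (tp hs hy e).1 := by
  apply List.ext_getElem?
  intro i
  by_cases hi : i < (tp hs hy e).1.length
  · rw [seg_getElem? _ hi]
    unfold pt
    have h1 : i < (tp hs hy (i + 1)).1.length := tp_len hs hy (i + 1)
    rcases le_total e (i + 1) with h | h
    · rw [prefix_getElem? (tp_mono hs hy h) hi, List.getElem?_eq_getElem hi]; rfl
    · rw [prefix_getElem? (tp_mono hs hy h) h1, List.getElem?_eq_getElem h1]; rfl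
  · rw [List.getElem?_eq_none (by simpa using hi), List.getElem?_eq_none (by simpa using hi)]

theorem seg_of_prefix {x : ℕ → Bool} {τ : Str} {n : ℕ} (h : τ <+: seg x n) :
    seg x τ.length = τ := by
  have h1 := h.length_le
  rw [seg_length] at h1
  rw [← seg_take x h1]
  exact (List.prefix_iff_eq_take.1 h).symm

theorem seg_comp (x : ℕ → Bool) (m n : ℕ) : seg x m <+: seg x n ∨ seg x n <+: seg x m := by
  rcases le_total m n with h | h
  exacts [Or.inl (seg_prefix x h), Or.inr (seg_prefix x h)]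

theorem seg_le_tp {m e : ℕ} (h : m ≤ e) : seg (pt hs hy) m <+: (tp hs hy e).1 := by
  rw [← seg_tp hs hy e]
  exact seg_prefix _ (h.trans (tp_len hs hy e))

theorem on_pt (s : ℕ) : ∃ τ ∈ L cov s, seg (pt hs hy) τ.length = τ := by
  obtain ⟨M, hM⟩ : ∃ M, ∀ τ ∈ L cov s, τ.length ≤ M :=
    ⟨((L cov s).map List.length).sum, fun τ h =>
      List.single_le_sum (fun _ _ => Nat.zero_le _) _ (List.mem_map.2 ⟨τ, h, rfl⟩)⟩
  set R := (tp hs hy M).2
  obtain ⟨y, h1⟩ := leaves_ne (R.x s)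
  obtain ⟨z, hz, h2⟩ := L_ref cov (R.mono.id_le s) y (R.sub s y h1)
  refine ⟨z, hz, ?_⟩
  have h3 : z <+: (tp hs hy M).1 :=
    List.prefix_of_prefix_length_le h2 (R.ext s y h1) ((hM z hz).trans (tp_len hs hy M))
  rw [← seg_tp hs hy M] at h3
  exact seg_of_prefix h3

theorem on_pt' (e s : ℕ) (h : (tp hs hy e).2.s 0 ≤ s) :
    ∃ τ ∈ L cov s, (tp hs hy e).1 <+: τ ∧ seg (pt hs hy) τ.length = τ := by
  obtain ⟨τ, h1, h2⟩ := on_pt hs hy s
  set R := (tp hs hy e).2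
  obtain ⟨y, h3⟩ := leaves_ne (R.x 0)
  obtain ⟨z, -, h4, h5⟩ := L_above cov h ⟨y, R.sub 0 y h3, R.ext 0 y h3⟩ h1 (by
    rw [← seg_tp hs hy e, ← h2]; exact seg_comp _ _ _)
  exact ⟨τ, h1, h4.trans h5, h2⟩

include hs hy in
theorem exists_point : ∃ A : ℕ → Bool,
    (∀ m, ∃ s₀, ∀ s, s₀ ≤ s → ∃ τ ∈ L cov s, seg A m <+: τ ∧ seg A τ.length = τ) ∧
    (∀ m, ∃ K, ∀ N, ∃ s, N ≤ s ∧ ∃ O : List Str, O.length ≤ K ∧
      ∀ τ ∈ L cov s, τ ∈ O ∨ seg A m <+: τ) ∧
    (∀ e, (∀ n, ∃ j s, cov e n s (seg A j) = true) → ∃ m, ∀ n, ∃ s₀, ∀ s, s₀ ≤ s →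
      ∀ τ ∈ L cov s, seg A m <+: τ → cov e n s τ = true) ∧
    (∀ m, ∃ j, m ≤ j ∧ A j = true ∧ ∃ s₀, ∀ s, s₀ ≤ s →
      ∃ τ ∈ L cov s, seg A j ++ [false] <+: τ) := by
  refine ⟨pt hs hy, fun m => ?_, fun m => ?_, fun e he => ?_, fun m => ?_⟩
  · refine ⟨(tp hs hy m).2.s 0, fun s h => ?_⟩
    obtain ⟨τ, h1, h2, h3⟩ := on_pt' hs hy m s h
    exact ⟨τ, h1, (seg_le_tp hs hy le_rfl).trans h2, h3⟩
  · set R := (tp hs hy m).2
    refine ⟨R.K, fun N => ⟨R.s N, R.mono.id_le N, ?_⟩⟩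
    obtain ⟨O, h1, h2⟩ := R.oth N
    exact ⟨O, h1, fun τ hτ => (h2 τ hτ).imp_right fun h =>
      (seg_le_tp hs hy le_rfl).trans (R.ext N τ h)⟩
  · obtain ⟨h1, h2⟩ := tp_spec hs hy e
    rcases h2 with h2 | ⟨n, h2⟩
    · refine ⟨((tp hs hy e).1 ++ [true]).length, fun n => ?_⟩
      rw [← seg_tp hs hy (e + 1)] at h1
      rw [seg_of_prefix h1]
      obtain ⟨s₀, h3, h4⟩ := h2 n
      refine ⟨s₀, fun s h τ hτ h5 => ?_⟩
      obtain ⟨z, hz, h6, h7⟩ := L_above cov h h3 hτ (Or.inl h5)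
      exact hs _ _ _ _ _ h (hy _ _ _ _ _ h7 (h4 z hz h6))
    · exfalso
      obtain ⟨j, s, h3⟩ := he n
      set R := (tp hs hy (e + 1)).2
      set k := s + Encodable.encode (seg (pt hs hy) j) + 1 with hk
      have hk1 : k ≤ R.s k := R.mono.id_le k
      obtain ⟨τ, h4, h5, h6⟩ := on_pt' hs hy (e + 1) (R.s k) (R.mono.monotone (Nat.zero_le k))
      obtain ⟨z, hz, h7⟩ := cands_complete (s := R.s k) (ρ := seg (pt hs hy) j)
        (R.all k τ h4 h5) (by omega) (by rw [← h6]; exact seg_comp _ _ _)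
      have := first_none (h2 k) z hz
      rw [hs _ _ _ _ _ (by omega) (hy _ _ _ _ _ h7 h3)] at this
      cases this
  · set σ := (tp hs hy m).1 with hσ
    have h1 := (tp_spec hs hy m).1
    rw [← seg_tp hs hy (m + 1)] at h1
    have h2 := seg_of_prefix h1
    rw [List.length_append, List.length_singleton, seg_succ, seg_tp] at h2
    refine ⟨σ.length, tp_len hs hy m, by simpa using h2, ?_⟩
    rw [hσ, seg_tp]
    obtain ⟨s₀, -, h3⟩ := (tp hs hy m).2.tooth_out 0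
    refine ⟨s₀, fun s h => ?_⟩
    obtain ⟨s', h4, y, h5, h6⟩ := (tp hs hy m).2.tooth_out s
    obtain ⟨z, hz, h7⟩ := L_ref cov h4 y h5
    obtain ⟨w, -, h8, h9⟩ := L_above cov h h3 hz (List.prefix_or_prefix_of_prefix h6 h7)
    exact ⟨z, hz, h8.trans h9⟩

end Pool.Agent.H917Z.HIF
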