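import Pool.Agent.H917Z.HIF.Pt

set_option autoImplicit false

namespace Pool.Agent.H917Z.HIF

open Encodable Pool.Agent.Helper446 Pool.Agent.Helper446.Defs Pool.Agent.Helper446.Tree
  Pool.Agent.Helper446.Cls Pool.Agent.Helper446.Oracle Computability Filter MeasureTheory
  Topology

theorem mem_cyl {X : ℕ → Bool} {σ : Str} : X ∈ Defs.cyl σ ↔ seg X σ.length = σ := Iff.rfl

theorem cyl_anti {σ τ : Str} (h : σ <+: τ) : Defs.cyl τ ⊆ Defs.cyl σ := by
  intro X hX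
  rw [mem_cyl] at hX ⊢
  rw [← hX] at h
  exact seg_of_prefix h

theorem cyl_meas (x : ℕ → Bool) (n : ℕ) : MeasurableSet (Defs.cyl (seg x n)) := by
  have : Defs.cyl (seg x n) = ⋂ i ∈ Finset.range n, (fun X : ℕ → Bool => X i) ⁻¹' {x i} := by
    ext X
    simp only [mem_cyl, seg_length, seg_eq_iff, Set.mem_iInter, Finset.mem_range,
      Set.mem_preimage, Set.mem_singleton_iff]
  rw [this]
  exact Finset.measurableSet_biInter _ fun i _ =>
    measurable_pi_apply i (MeasurableSet.singleton _)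

theorem small (μ : Measure (ℕ → Bool)) [IsProbabilityMeasure μ] (hc : ∀ Y, μ {Y} = 0) {ε : ℝ}
    (hε : 0 < ε) : ∃ n, ∀ β : Str, β.length = n → μ.real (Defs.cyl β) < ε := by
  by_contra hcon
  push Not at hcon
  obtain ⟨x, hx, -⟩ := exists_path (T := {β | ε ≤ μ.real (Defs.cyl β)})
    (fun σ τ h h1 => le_trans (show ε ≤ _ from h1) (measureReal_mono (cyl_anti h))) []
    (fun n => by simpa using hcon n)
  have h1 : Tendsto (fun n => μ (Defs.cyl (seg x n))) atTop (𝓝 (μ (⋂ n, Defs.cyl (seg x n)))) :=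
    tendsto_measure_iInter_atTop (fun n => (cyl_meas x n).nullMeasurableSet)
      (fun m n h => cyl_anti (seg_prefix x h)) ⟨0, measure_ne_top _ _⟩
  have h2 : (⋂ n, Defs.cyl (seg x n)) = {x} := by
    ext y
    simp only [Set.mem_iInter, mem_cyl, seg_length, seg_eq_iff, Set.mem_singleton_iff]
    exact ⟨fun h => funext fun i => h (i + 1) i (by omega), fun h _ _ _ => by rw [h]⟩
  rw [h2, hc] at h1
  have h3 : Tendsto (fun n => μ.real (Defs.cyl (seg x n))) atTop (𝓝 0) :=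
    (ENNReal.tendsto_toReal ENNReal.zero_ne_top).comp h1
  obtain ⟨n, hn⟩ := (h3.eventually (gt_mem_nhds hε)).exists
  exact absurd (hx n) (not_le.2 hn)

theorem union_le (μ : Measure (ℕ → Bool)) [IsProbabilityMeasure μ] {ε : ℝ} (l : List Str)
    (h : ∀ β ∈ l, μ.real (Defs.cyl β) ≤ ε) :
    μ.real (⋃ σ ∈ {β | β ∈ l}, Defs.cyl σ) ≤ l.length * ε := by
  induction l with
  | nil => simp
  | cons a l ih =>
    have h1 : (⋃ σ ∈ {β | β ∈ a :: l}, Defs.cyl σ) =
        Defs.cyl a ∪ ⋃ σ ∈ {β | β ∈ l}, Defs.cyl σ := by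
      ext X; simp
    rw [h1]
    refine (measureReal_union_le _ _).trans ?_
    have h2 := ih fun β hβ => h β (List.mem_cons_of_mem _ hβ)
    have h3 := h a List.mem_cons_self
    simp only [List.length_cons, Nat.cast_add, Nat.cast_one]
    linarith

@[fun_prop] theorem cpow {α : Type*} [Primcodable α] {f g : α → ℕ} (hf : Computable f)
    (hg : Computable g) : Computable fun x => f x ^ g x :=
  (Primrec₂.unpaired'.1 Nat.Primrec.pow).to_comp.comp hf hg

variable {L : ℕ → List Str} {A : ℕ → Bool}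

theorem Pt.ncr (h : Pt L A) {B : ℕ → Bool} (hB : Defs.orc B ≤ᵀ Defs.orc A) : Defs.NCR B := by
  rintro μ hμ hc ⟨R, ⟨-, hR⟩, hrand⟩
  replace hR := reIn_of hR
  obtain ⟨Rel, hRel, hBA⟩ := red_iff.1 hB
  have hL := h.comp
  let U : ℕ × Str → Prop := fun p => ∃ y : Bool × (List ℕ × List ℕ),
    Rel (p.1, y.1) y.2 ∧ okS p.2 y.2
  have hU : REPred U := by
    refine RE.ex (p := fun (p : ℕ × Str) (y : Bool × (List ℕ × List ℕ)) =>
      Rel (p.1, y.1) y.2 ∧ okS p.2 y.2) (RE.and ?_ (okS_re (by fun_prop) (by fun_prop)))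
    exact RE.comp hRel (f := fun u : (ℕ × Str) × (Bool × (List ℕ × List ℕ)) =>
      ((u.1.1, u.2.1), u.2.2)) (by fun_prop)
  have huse : ∀ i, ∃ c j, Rel (i, B i) c ∧ okS (seg A j) c := fun i => by
    obtain ⟨c, h1, h2⟩ := (hBA (i, B i)).1 rfl
    obtain ⟨j, hj⟩ := ok_seg h2
    exact ⟨c, j, h1, hj⟩
  choose cu ju hu1 hu2 using huse
  obtain ⟨m₀, hm₀⟩ := h.s4 U hU fun n => ⟨ju n, (B n, cu n), hu1 n, hu2 n⟩
  obtain ⟨s₁, hs₁⟩ := h.s2 m₀
  let Out : Str → Str → Prop := fun τ β => ∀ i < β.length, ∃ y : Bool × (List ℕ × List ℕ),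
    β[i]? = some y.1 ∧ Rel (i, y.1) y.2 ∧ okS τ y.2
  have hOut : REPred fun p : Str × Str => Out p.1 p.2 := by
    refine RE.all_lt (p := fun (p : Str × Str) i => ∃ y : Bool × (List ℕ × List ℕ),
      p.2[i]? = some y.1 ∧ Rel (i, y.1) y.2 ∧ okS p.1 y.2) ?_ (by fun_prop)
    refine RE.ex (p := fun (x : (Str × Str) × ℕ) (y : Bool × (List ℕ × List ℕ)) =>
      x.1.2[x.2]? = some y.1 ∧ Rel (x.2, y.1) y.2 ∧ okS x.1.1 y.2) ?_
    refine RE.and (RE.eq (by fun_prop) (by fun_prop))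
      (RE.and ?_ (okS_re (by fun_prop) (by fun_prop)))
    exact RE.comp hRel (f := fun u : ((Str × Str) × ℕ) × (Bool × (List ℕ × List ℕ)) =>
      ((u.1.2, u.2.1), u.2.2)) (by fun_prop)
  let Good : List Str → Prop := fun F => ∃ s, s₁ ≤ s ∧ ∀ τ ∈ L s, ¬ seg A m₀ <+: τ ∨
    ∃ β ∈ F, Out τ β
  have hGood : REPred Good := by
    refine RE.exN (p := fun (F : List Str) s => s₁ ≤ s ∧ ∀ τ ∈ L s, ¬ seg A m₀ <+: τ ∨
      ∃ β ∈ F, Out τ β) (RE.and (RE.le (by fun_prop) (by fun_prop)) ?_)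
    refine RE.all_mem (p := fun (z : List Str × ℕ) (τ : Str) => ¬ seg A m₀ <+: τ ∨
      ∃ β ∈ z.1, Out τ β) ?_ (by fun_prop)
    refine RE.or (pre_re (by fun_prop) (by fun_prop)).not.to_re ?_
    refine RE.ex_mem (p := fun (z : (List Str × ℕ) × Str) (β : Str) => Out z.2 β) ?_
      (by fun_prop)
    exact RE.comp hOut (f := fun u : ((List Str × ℕ) × Str) × Str => (u.1.2, u.2)) (by fun_prop)
  have hsound : ∀ F, Good F → ∃ β ∈ F, B ∈ Defs.cyl β := by
    rintro F ⟨s, hs, h1⟩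
    obtain ⟨τ, h2, h3, h4⟩ := hs₁ s hs
    rcases h1 τ h2 with h5 | ⟨β, h5, h6⟩
    · exact absurd h3 h5
    · refine ⟨β, h5, ?_⟩
      rw [mem_cyl]
      apply List.ext_getElem?
      intro i
      by_cases hi : i < β.length
      · obtain ⟨y, h7, h8, h9⟩ := h6 i hi
        rw [← h4] at h9
        have : B i = y.1 := (hBA (i, y.1)).2 ⟨y.2, h8, h9.ok⟩
        rw [seg_getElem? B hi, h7, this]
      · rw [List.getElem?_eq_none (by rw [seg_length]; omega), List.getElem?_eq_none (by omega)]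
  let Sm : Str → ℕ → Prop := fun β c => μ.real (Defs.cyl β) < ((1 : ℕ) : ℝ) / ((c : ℝ) + 1)
  have hSm : REIn (st R) fun p : Str × ℕ => Sm p.1 p.2 :=
    hR.comp (f := fun p : Str × ℕ => (p.1, 1, p.2)) (by fun_prop)
  let P : ℕ → Str × List Str → Prop := fun k F => Good (F.1 :: F.2) ∧ Sm F.1 (2 ^ (k + 1)) ∧
    ∀ β ∈ F.2, Sm β (2 ^ (k + 1) * F.2.length)
  have hP : REIn (st R) fun p : ℕ × (Str × List Str) => P p.1 p.2 := by
    refine REIn.and (REIn.of_re (RE.comp hGood (by fun_prop))) (REIn.and ?_ ?_)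
    · exact hSm.comp (f := fun p : ℕ × (Str × List Str) => (p.2.1, 2 ^ (p.1 + 1))) (by fun_prop)
    · refine REIn.all_mem (S := fun (p : ℕ × (Str × List Str)) (β : Str) =>
        Sm β (2 ^ (p.1 + 1) * p.2.2.length)) ?_ (by fun_prop)
      exact hSm.comp (f := fun u : (ℕ × (Str × List Str)) × Str =>
        (u.2, 2 ^ (u.1.1 + 1) * u.1.2.2.length)) (by fun_prop)
  have htot : ∀ k, ∃ F, P k F := by
    intro k
    obtain ⟨j, hj⟩ := small μ hc (ε := ((1 : ℕ) : ℝ) / (((2 ^ (k + 1) : ℕ) : ℝ) + 1))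
      (by positivity)
    obtain ⟨K, hK⟩ := h.s3 (m₀ + ∑ i ∈ Finset.range j, ju i)
    obtain ⟨n₀, hn₀⟩ := small μ hc (ε := ((1 : ℕ) : ℝ) / (((2 ^ (k + 1) * K : ℕ) : ℝ) + 1))
      (by positivity)
    have h1 : ∀ᶠ s in atTop, ∀ i ∈ Finset.range n₀, ∀ τ ∈ L s, seg A m₀ <+: τ →
        ∃ k ≤ τ.length, U (i, τ.take k) :=
      (eventually_all_finset _).2 fun i _ => eventually_atTop.2 (hm₀ i)
    obtain ⟨N, hN⟩ := eventually_atTop.1 h1
    obtain ⟨s, hs, O, hO1, hO2⟩ := hK (N + s₁)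
    have h2 : ∀ τ : Str, ∃ β : Str, β.length = n₀ ∧ (τ ∈ L s → seg A m₀ <+: τ → Out τ β) := by
      intro τ
      by_cases h3 : τ ∈ L s ∧ seg A m₀ <+: τ
      · have h4 : ∀ i, ∃ y : Bool × (List ℕ × List ℕ), i < n₀ →
            Rel (i, y.1) y.2 ∧ okS τ y.2 := by
          intro i
          by_cases hi : i < n₀
          · obtain ⟨k, -, y, h5, h6⟩ := hN s (by omega) i (Finset.mem_range.2 hi) τ h3.1 h3.2
            exact ⟨y, fun _ => ⟨h5, h6.mono (List.take_prefix k τ)⟩⟩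
          · exact ⟨(false, [], []), fun h5 => absurd h5 hi⟩
        choose y hy using h4
        refine ⟨seg (fun i => (y i).1) n₀, by simp, fun _ _ i hi => ?_⟩
        rw [seg_length] at hi
        exact ⟨y i, seg_getElem? _ hi, hy i hi⟩
      · exact ⟨seg B n₀, by simp, fun h4 h5 => absurd ⟨h4, h5⟩ h3⟩
    choose bb hb1 hb2 using h2
    refine ⟨(seg B j, O.map bb), ⟨s, by omega, fun τ hτ => ?_⟩, hj _ (by simp), fun β hβ => ?_⟩
    · by_cases h3 : seg A m₀ <+: τ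
      · right
        rcases hO2 τ hτ with h4 | h4
        · exact ⟨bb τ, List.mem_cons_of_mem _ (List.mem_map.2 ⟨τ, h4, rfl⟩), hb2 τ hτ h3⟩
        · refine ⟨seg B j, List.mem_cons_self, fun i hi => ?_⟩
          rw [seg_length] at hi
          refine ⟨(B i, cu i), seg_getElem? B hi, hu1 i, (hu2 i).mono (List.IsPrefix.trans
            (seg_prefix A ?_) h4)⟩
          have := Finset.single_le_sum (f := ju) (fun _ _ => Nat.zero_le _)
            (Finset.mem_range.2 hi)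
          omega
      · exact Or.inl h3
    · obtain ⟨τ, -, rfl⟩ := List.mem_map.1 hβ
      refine (hn₀ _ (hb1 τ)).trans_le ?_
      have h3 : 2 ^ (k + 1) * (O.map bb).length ≤ 2 ^ (k + 1) * K :=
        Nat.mul_le_mul_left _ (by simpa using hO1)
      have h4 : ((2 ^ (k + 1) * (O.map bb).length : ℕ) : ℝ) ≤ ((2 ^ (k + 1) * K : ℕ) : ℝ) :=
        Nat.cast_le.2 h3
      gcongr
  obtain ⟨F, hF1, hF2⟩ := unif hP htot
  refine hrand (fun k => {β | β ∈ (F k).1 :: (F k).2}) ⟨to_reIn ?_, fun k => ?_⟩ ?_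
  · have h1 : REIn (st R) fun p : ℕ × Str => ∃ G : Str × List Str, F p.1 = G ∧
        p.2 ∈ G.1 :: G.2 := by
      refine REIn.ex (S := fun (p : ℕ × Str) (G : Str × List Str) => F p.1 = G ∧
        p.2 ∈ G.1 :: G.2) (REIn.and ?_ (REIn.of_re (RE.mem_list (by fun_prop) (by fun_prop))))
      exact hF2.comp (f := fun u : (ℕ × Str) × (Str × List Str) => (u.1.1, u.2)) (by fun_prop)
    refine h1.of_eq fun p => ?_
    simp
  · obtain ⟨-, h1, h2⟩ := hF1 k
    have h3 : (⋃ σ ∈ {β | β ∈ (F k).1 :: (F k).2}, Defs.cyl σ) =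
        Defs.cyl (F k).1 ∪ ⋃ σ ∈ {β | β ∈ (F k).2}, Defs.cyl σ := by
      ext X; simp
    rw [h3]
    refine (measureReal_union_le _ _).trans ?_
    have h4 := union_le μ (F k).2 fun β hβ => (h2 β hβ).le
    have h5 : ((1 : ℕ) : ℝ) / (((2 ^ (k + 1) : ℕ) : ℝ) + 1) ≤ (1 / 2) ^ (k + 1) := by
      push_cast
      rw [one_div_pow]
      gcongr
      linarith
    have h6 : ((F k).2.length : ℝ) * (((1 : ℕ) : ℝ) /
        (((2 ^ (k + 1) * (F k).2.length : ℕ) : ℝ) + 1)) ≤ (1 / 2) ^ (k + 1) := by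
      push_cast
      rw [one_div_pow, mul_one_div, div_le_div_iff₀ (by positivity) (by positivity)]
      linarith
    have h7 : ((1 : ℝ) / 2) ^ k = (1 / 2) ^ (k + 1) + (1 / 2) ^ (k + 1) := by ring
    have h8 : μ.real (Defs.cyl (F k).1) < _ := h1
    linarith
  · refine Set.mem_iInter.2 fun k => ?_
    obtain ⟨β, h1, h2⟩ := hsound _ (hF1 k).1
    exact Set.mem_biUnion (show β ∈ {β | β ∈ (F k).1 :: (F k).2} from h1) h2

end Pool.Agent.H917Z.HIF
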