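import Pool.Agent.H917Z.HIF.Pt

set_option autoImplicit false

namespace Pool.Agent.H917Z.HIF

open Encodable Pool.Agent.Helper446 Pool.Agent.Helper446.Defs Pool.Agent.Helper446.Tree
  Pool.Agent.Helper446.Cls Pool.Agent.Helper446.Oracle Computability Filter

/-- limit approximation of a set r.e. in an r.e. set -/
theorem approx {α : Type} [Primcodable α] {W : Set ℕ} (hW : REPred fun x => x ∈ W)
    {S : α → Prop} (h : REIn W S) : ∃ v : α × ℕ × ℕ → Prop, ComputablePred v ∧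
      ∃ V : α → ℕ → Prop, (∀ a, S a ↔ ∃ t, V a t) ∧
        ∀ a t, ∀ᶠ s in atTop, (v (a, t, s) ↔ V a t) := by
  obtain ⟨R, hR, hS⟩ := h
  obtain ⟨q, hq, hRq⟩ := RE.re_iff.1 hR
  obtain ⟨w, hw, hWw⟩ := RE.re_iff.1 hW
  let cc : ℕ → List ℕ × List ℕ := fun k =>
    (decode (α := List ℕ × List ℕ) k.unpair.1).getD ([], [])
  have hcc : Computable cc :=
    Primrec.option_getD.to_comp.comp (by fun_prop) (by fun_prop)
  have hq' : Computable fun p : α × ℕ × ℕ => q (p.1, cc p.2.1) p.2.1.unpair.2 :=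
    hq.comp (g := fun p : α × ℕ × ℕ => (p.1, cc p.2.1))
      (h := fun p : α × ℕ × ℕ => p.2.1.unpair.2) (by fun_prop) (by fun_prop)
  let ws : ℕ × ℕ → Bool := fun p => RE.exB (w p.1) p.2
  have hws : Computable ws :=
    RE.computable_exB (q := fun p : ℕ × ℕ => w p.1)
      (hw.comp (g := fun p : (ℕ × ℕ) × ℕ => p.1.1) (by fun_prop) (by fun_prop)) (by fun_prop)
  have hlim : ∀ x, ∀ᶠ s in atTop, (ws (x, s) = true ↔ x ∈ W) := by
    intro x
    by_cases hx : x ∈ W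
    · obtain ⟨u, hu⟩ := (hWw x).1 hx
      filter_upwards [eventually_gt_atTop u] with s hs
      simp only [ws, RE.exB_iff, hx, iff_true]
      exact ⟨u, hs, hu⟩
    · refine Eventually.of_forall fun s => ?_
      simp only [ws, RE.exB_iff, hx, iff_false]
      rintro ⟨u, -, hu⟩
      exact hx ((hWw x).2 ⟨u, hu⟩)
  refine ⟨fun p => q (p.1, cc p.2.1) p.2.1.unpair.2 = true ∧
    (∀ x ∈ (cc p.2.1).1, ws (x, p.2.2) = true) ∧ ∀ x ∈ (cc p.2.1).2, ¬ ws (x, p.2.2) = true,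
    ?_, fun a t => q (a, cc t) t.unpair.2 = true ∧ Ok W (cc t), fun a => ?_, fun a t => ?_⟩
  · refine RE.cp_of_re ?_ ?_
    · refine RE.and (RE.of_bool hq') (RE.and ?_ ?_)
      · exact RE.all_mem (p := fun (p : α × ℕ × ℕ) x => ws (x, p.2.2) = true)
          (RE.eq (by fun_prop) (by fun_prop)) (by fun_prop)
      · exact RE.all_mem (p := fun (p : α × ℕ × ℕ) x => ¬ ws (x, p.2.2) = true)
          (RE.ne (by fun_prop) (by fun_prop)) (by fun_prop)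
    · have h1 : REPred fun p : α × ℕ × ℕ => q (p.1, cc p.2.1) p.2.1.unpair.2 ≠ true ∨
          (∃ x ∈ (cc p.2.1).1, ws (x, p.2.2) ≠ true) ∨
          ∃ x ∈ (cc p.2.1).2, ws (x, p.2.2) = true := by
        refine RE.or (RE.ne hq' (by fun_prop)) (RE.or ?_ ?_)
        · exact RE.ex_mem (p := fun (p : α × ℕ × ℕ) x => ws (x, p.2.2) ≠ true)
            (RE.ne (by fun_prop) (by fun_prop)) (by fun_prop)
        · exact RE.ex_mem (p := fun (p : α × ℕ × ℕ) x => ws (x, p.2.2) = true)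
            (RE.eq (by fun_prop) (by fun_prop)) (by fun_prop)
      refine h1.of_eq fun p => ?_
      rw [not_and_or, not_and_or]
      push Not
      rfl
  · rw [hS]
    constructor
    · rintro ⟨c, h1, h2⟩
      obtain ⟨t, ht⟩ := (hRq (a, c)).1 h1
      refine ⟨Nat.pair (encode c) t, ?_⟩
      have hck : cc (Nat.pair (encode c) t) = c := by
        simp only [cc, Nat.unpair_pair]
        rw [encodek, Option.getD_some]
      simp only [hck, Nat.unpair_pair]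
      exact ⟨ht, h2⟩
    · rintro ⟨t, h1, h2⟩
      exact ⟨cc t, (hRq (a, cc t)).2 ⟨_, h1⟩, h2⟩
  · have h1 : ∀ᶠ s in atTop, ∀ x ∈ ((cc t).1 ++ (cc t).2).toFinset,
        (ws (x, s) = true ↔ x ∈ W) := (eventually_all_finset _).2 fun x _ => hlim x
    filter_upwards [h1] with s hs
    simp only [List.mem_toFinset, List.mem_append] at hs
    refine and_congr Iff.rfl (and_congr ?_ ?_)
    · exact forall₂_congr fun x hx => hs x (Or.inl hx)
    · exact forall₂_congr fun x hx => not_congr (hs x (Or.inr hx))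

variable {L : ℕ → List Str} {A : ℕ → Bool}

theorem Pt.not_le (h : Pt L A) {W : ℕ → Bool} (hW : REPred fun x => W x = true) :
    ¬ Defs.orc A ≤ᵀ Defs.orc W := by
  intro hA
  obtain ⟨v, hv, V, hV, hlim⟩ := approx (W := st W) hW (red_iff.1 hA)
  let U : ℕ × Str → Prop := fun p => p.2.length = p.1 ∧ ∃ s, p.1 ≤ s ∧ ∀ i < p.1,
    ∃ y : Bool × ℕ, p.2[i]? = some y.1 ∧ v ((i, y.1), y.2, s) ∧
      ∀ t < y.2, ¬ v ((i, !y.1), t, s)
  have hU : REPred U := by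
    refine RE.and (RE.eq (by fun_prop) (by fun_prop)) ?_
    refine RE.exN (p := fun (p : ℕ × Str) s => p.1 ≤ s ∧ ∀ i < p.1,
      ∃ y : Bool × ℕ, p.2[i]? = some y.1 ∧ v ((i, y.1), y.2, s) ∧
        ∀ t < y.2, ¬ v ((i, !y.1), t, s)) ?_
    refine RE.and (RE.le (by fun_prop) (by fun_prop)) ?_
    refine RE.all_lt (p := fun (x : (ℕ × Str) × ℕ) i =>
      ∃ y : Bool × ℕ, x.1.2[i]? = some y.1 ∧ v ((i, y.1), y.2, x.2) ∧
        ∀ t < y.2, ¬ v ((i, !y.1), t, x.2)) ?_ (by fun_prop)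
    refine RE.ex (p := fun (z : ((ℕ × Str) × ℕ) × ℕ) (y : Bool × ℕ) =>
      z.1.1.2[z.2]? = some y.1 ∧ v ((z.2, y.1), y.2, z.1.2) ∧
        ∀ t < y.2, ¬ v ((z.2, !y.1), t, z.1.2)) ?_
    refine RE.and (RE.eq (by fun_prop) (by fun_prop)) (RE.and ?_ ?_)
    · exact RE.comp hv.to_re (f := fun u : (((ℕ × Str) × ℕ) × ℕ) × (Bool × ℕ) =>
        ((u.1.2, u.2.1), u.2.2, u.1.1.2)) (by fun_prop)
    · refine RE.all_lt (p := fun (u : (((ℕ × Str) × ℕ) × ℕ) × (Bool × ℕ)) t =>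
        ¬ v ((u.1.2, !u.2.1), t, u.1.1.2)) ?_ (by fun_prop)
      exact RE.comp hv.not.to_re (f := fun u : ((((ℕ × Str) × ℕ) × ℕ) × (Bool × ℕ)) × ℕ =>
        ((u.1.1.2, !u.1.2.1), u.2, u.1.1.1.2)) (by fun_prop)
  have hwit : ∀ i, ∃ t, ∀ᶠ s in atTop, v ((i, A i), t, s) ∧ ∀ t' ≤ t, ¬ v ((i, !A i), t', s) := by
    intro i
    obtain ⟨t, ht⟩ := (hV (i, A i)).1 rfl
    refine ⟨t, ?_⟩
    have h1 : ∀ᶠ s in atTop, ∀ t' ∈ Finset.range (t + 1),
        (v ((i, !A i), t', s) ↔ V (i, !A i) t') :=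
      (eventually_all_finset _).2 fun t' _ => hlim _ t'
    filter_upwards [h1, hlim (i, A i) t] with s hs hs'
    refine ⟨hs'.2 ht, fun t' ht' h2 => ?_⟩
    have := (hV (i, !A i)).2 ⟨t', (hs t' (Finset.mem_range.2 (by omega))).1 h2⟩
    simp at this
  choose tt htt using hwit
  obtain ⟨m, hm⟩ := h.s4 U hU fun n => by
    have h1 : ∀ᶠ s in atTop, ∀ i ∈ Finset.range n,
        v ((i, A i), tt i, s) ∧ ∀ t' ≤ tt i, ¬ v ((i, !A i), t', s) :=
      (eventually_all_finset _).2 fun i _ => htt i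
    obtain ⟨s, hs1, hs2⟩ := (h1.and (eventually_ge_atTop n)).exists
    refine ⟨n, by simp, s, hs2, fun i hi => ⟨(A i, tt i), seg_getElem? A hi,
      (hs1 i (Finset.mem_range.2 hi)).1, fun t ht => (hs1 i (Finset.mem_range.2 hi)).2 t ht.le⟩⟩
  obtain ⟨j, hj1, hj2, s₁, hj3⟩ := h.s5 m
  obtain ⟨n₀, hn₀⟩ := eventually_atTop.1 (htt j)
  obtain ⟨s₀, hs₀⟩ := hm (n₀ + j + 1)
  obtain ⟨τ, hτ1, hτ2⟩ := hj3 (s₀ + s₁) (by omega)
  obtain ⟨k, -, -, s, hs, h3⟩ := hs₀ (s₀ + s₁) (by omega) τ hτ1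
    ((seg_prefix A hj1).trans ((List.prefix_append _ _).trans hτ2))
  obtain ⟨⟨b, t⟩, h4, h5, h6⟩ := h3 j (by show j < n₀ + j + 1; omega)
  have h7 : τ[j]? = some false := get_mono hτ2 (by
    rw [List.getElem?_append_right (by simp)]; simp)
  have h8 := get_mono (List.take_prefix k τ) h4
  rw [h7] at h8
  obtain rfl : false = b := Option.some.inj h8
  obtain ⟨h9, h10⟩ := hn₀ s (by have : n₀ + j + 1 ≤ s := hs; omega)
  rw [hj2] at h9 h10
  rcases le_or_gt t (tt j) with h11 | h11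
  · exact h10 t h11 h5
  · exact h6 _ h11 h9

/-- the point is computably dominated -/
theorem Pt.dom (h : Pt L A) {f : ℕ → ℕ} (hf : (fun n => Part.some (f n)) ≤ᵀ Defs.orc A) :
    ∃ g : ℕ → ℕ, Computable g ∧ ∀ n, f n ≤ g n := by
  rw [orc_eq, turingReducible_fun_iff] at hf
  obtain ⟨R, hR, hf⟩ := hf
  let U : ℕ × Str → Prop := fun p => ∃ y : ℕ × (List ℕ × List ℕ), R (p.1, y.1) y.2 ∧ okS p.2 y.2
  have hU : REPred U := by
    refine RE.ex (p := fun (p : ℕ × Str) (y : ℕ × (List ℕ × List ℕ)) =>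
      R (p.1, y.1) y.2 ∧ okS p.2 y.2) (RE.and ?_ (okS_re (by fun_prop) (by fun_prop)))
    exact RE.comp hR (f := fun u : (ℕ × Str) × (ℕ × (List ℕ × List ℕ)) =>
      ((u.1.1, u.2.1), u.2.2)) (by fun_prop)
  obtain ⟨m, hm⟩ := h.s4 U hU fun n => by
    obtain ⟨c, h1, h2⟩ := (hf (n, f n)).1 rfl
    obtain ⟨j, hj⟩ := ok_seg h2
    exact ⟨j, (f n, c), h1, hj⟩
  obtain ⟨s₁, hs₁⟩ := h.s2 m
  have hL := h.comp
  let r : ℕ → ℕ → Prop := fun n b => ∃ s, s₁ ≤ s ∧ ∀ τ ∈ L s, ¬ seg A m <+: τ ∨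
    ∃ y : ℕ × (List ℕ × List ℕ), y.1 ≤ b ∧ R (n, y.1) y.2 ∧ okS τ y.2
  have hr : REPred fun x : ℕ × ℕ => r x.1 x.2 := by
    refine RE.exN (p := fun (x : ℕ × ℕ) s => s₁ ≤ s ∧ ∀ τ ∈ L s, ¬ seg A m <+: τ ∨
      ∃ y : ℕ × (List ℕ × List ℕ), y.1 ≤ x.2 ∧ R (x.1, y.1) y.2 ∧ okS τ y.2) ?_
    refine RE.and (RE.le (by fun_prop) (by fun_prop)) ?_
    refine RE.all_mem (p := fun (z : (ℕ × ℕ) × ℕ) (τ : Str) => ¬ seg A m <+: τ ∨
      ∃ y : ℕ × (List ℕ × List ℕ), y.1 ≤ z.1.2 ∧ R (z.1.1, y.1) y.2 ∧ okS τ y.2) ?_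
      (by fun_prop)
    refine RE.or (pre_re (by fun_prop) (by fun_prop)).not.to_re ?_
    refine RE.ex (p := fun (z : ((ℕ × ℕ) × ℕ) × Str) (y : ℕ × (List ℕ × List ℕ)) =>
      y.1 ≤ z.1.1.2 ∧ R (z.1.1.1, y.1) y.2 ∧ okS z.2 y.2) ?_
    refine RE.and (RE.le (by fun_prop) (by fun_prop))
      (RE.and ?_ (okS_re (by fun_prop) (by fun_prop)))
    exact RE.comp hR (f := fun u : (((ℕ × ℕ) × ℕ) × Str) × (ℕ × (List ℕ × List ℕ)) =>
      ((u.1.1.1.1, u.2.1), u.2.2)) (by fun_prop)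
  have htot : ∀ n, ∃ b, r n b := by
    intro n
    obtain ⟨s₀, hs₀⟩ := hm n
    have h1 : ∀ τ : Str, ∃ y : ℕ × (List ℕ × List ℕ), τ ∈ L (s₀ + s₁) → seg A m <+: τ →
        R (n, y.1) y.2 ∧ okS τ y.2 := by
      intro τ
      by_cases h2 : τ ∈ L (s₀ + s₁) ∧ seg A m <+: τ
      · obtain ⟨k, -, y, h3, h4⟩ := hs₀ (s₀ + s₁) (by omega) τ h2.1 h2.2
        exact ⟨y, fun _ _ => ⟨h3, h4.mono (List.take_prefix k τ)⟩⟩
      · exact ⟨(0, [], []), fun h3 h4 => absurd ⟨h3, h4⟩ h2⟩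
    choose y hy using h1
    refine ⟨((L (s₀ + s₁)).map fun τ => (y τ).1).sum, s₀ + s₁, by omega, fun τ hτ => ?_⟩
    by_cases h2 : seg A m <+: τ
    · exact Or.inr ⟨y τ, List.single_le_sum (fun _ _ => Nat.zero_le _) _
        (List.mem_map.2 ⟨τ, hτ, rfl⟩), hy τ hτ h2⟩
    · exact Or.inl h2
  obtain ⟨g, hg1, hg2, hg3⟩ := RE.uniformize hr
  have hd : ∀ n, (g n).Dom := fun n => (hg2 n).2 (htot n)
  refine ⟨fun n => (g n).get (hd n), hg1.of_eq_tot fun n => Part.get_mem _, fun n => ?_⟩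
  obtain ⟨s, hs, h1⟩ := hg3 n _ (Part.get_mem (hd n))
  obtain ⟨τ, h2, h3, h4⟩ := hs₁ s hs
  rcases h1 τ h2 with h5 | ⟨y, h5, h6, h7⟩
  · exact absurd h3 h5
  · rw [← h4] at h7
    have : f n = y.1 := (hf (n, y.1)).2 ⟨y.2, h6, h7.ok⟩
    rw [this]; exact h5

theorem Pt.no_modulus (h : Pt L A) {B : ℕ → Bool} (hB : Defs.orc B ≡ᵀ Defs.orc A) :
    ¬ Defs.HasSelfModulus B := by
  rintro ⟨f, hf1, hf2⟩
  obtain ⟨g, hg1, hg2⟩ := h.dom (hf1.trans hB.1)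
  have h1 : (fun n => Part.some (g n)) ≤ᵀ Defs.orc fun _ => false :=
    Partrec.turingReducible hg1
  exact h.not_le (W := fun _ => false) (RE.const _) (hB.2.trans ((hf2 g hg2).trans h1))

end Pool.Agent.H917Z.HIF
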