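import Pool.Agent.H917Z.HIF.Lim
import Pool.Agent.H917Z.HIF.Comp
import Pool.Agent.H917Z.HIF.Defs

set_option autoImplicit false

namespace Pool.Agent.H917Z.HIF

open Encodable Pool.Agent.Helper446 Pool.Agent.Helper446.Defs Pool.Agent.Helper446.Tree
  Pool.Agent.Helper446.Cls Pool.Agent.Helper446.Oracle Computability

/-- the properties of the point used below -/
structure Pt (L : ℕ → List Str) (A : ℕ → Bool) : Prop where
  comp : Computable L
  nodup : ∀ s, (L s).Nodup
  s2 : ∀ m, ∃ s₀, ∀ s, s₀ ≤ s → ∃ τ ∈ L s, seg A m <+: τ ∧ seg A τ.length = τ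
  s3 : ∀ m, ∃ K, ∀ N, ∃ s, N ≤ s ∧ ∃ O : List Str, O.length ≤ K ∧
      ∀ τ ∈ L s, τ ∈ O ∨ seg A m <+: τ
  s4 : ∀ U : ℕ × Str → Prop, REPred U → (∀ n, ∃ j, U (n, seg A j)) → ∃ m, ∀ n, ∃ s₀, ∀ s,
      s₀ ≤ s → ∀ τ ∈ L s, seg A m <+: τ → ∃ k ≤ τ.length, U (n, τ.take k)
  s5 : ∀ m, ∃ j, m ≤ j ∧ A j = true ∧ ∃ s₀, ∀ s, s₀ ≤ s → ∃ τ ∈ L s, seg A j ++ [false] <+: τ

theorem exists_pt : ∃ L A, Pt L A := by
  obtain ⟨A, h2, h3, h4, h5⟩ := exists_point (cov := cov) cov_s cov_y
  refine ⟨St.L cov, A, L_prim.to_comp, fun s => St.nodup (St.glob_wf cov s), h2, h3, ?_, h5⟩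
  intro U hU h
  obtain ⟨e, he⟩ := RE.wst_univ hU
  obtain ⟨m, hm⟩ := h4 e fun n => by
    obtain ⟨j, hj⟩ := h n
    obtain ⟨s, hs⟩ := (he _).1 hj
    exact ⟨j, s, cov_iff.2 ⟨j, by simp, by rwa [seg_take A le_rfl]⟩⟩
  refine ⟨m, fun n => ?_⟩
  obtain ⟨s₀, h0⟩ := hm n
  refine ⟨s₀, fun s hs τ hτ h1 => ?_⟩
  obtain ⟨k, hk, h6⟩ := cov_iff.1 (h0 s hs τ hτ h1)
  exact ⟨k, hk, (he _).2 ⟨s, h6⟩⟩

/-- the set with characteristic function `X` -/
def st (X : ℕ → Bool) : Set ℕ := {n | X n = true}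

theorem orc_eq (X : ℕ → Bool) : Defs.orc X = chi (st X) := by
  funext n
  unfold Defs.orc chi
  by_cases h : X n = true
  · rw [if_pos h, chiN_eq_one.2 h]
  · rw [if_neg h, chiN_eq_zero.2 h]

theorem red_iff {A B : ℕ → Bool} :
    Defs.orc B ≤ᵀ Defs.orc A ↔ REIn (st A) fun p : ℕ × Bool => B p.1 = p.2 := by
  rw [orc_eq, orc_eq, turingReducible_iff]
  constructor
  · rintro ⟨h1, h2⟩
    have h3 : REIn (st A) fun p : ℕ × Bool => (p.1 ∈ st B ∧ p.2 = true) ∨
        (p.1 ∉ st B ∧ p.2 = false) :=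
      REIn.or (REIn.and (h1.comp (by fun_prop)) (REIn.of_re (RE.eq (by fun_prop) (by fun_prop))))
        (REIn.and (h2.comp (by fun_prop)) (REIn.of_re (RE.eq (by fun_prop) (by fun_prop))))
    refine h3.of_eq fun p => ?_
    obtain ⟨i, b⟩ := p
    simp only [st, Set.mem_ofPred_eq]
    cases b <;> cases B i <;> simp
  · intro h
    constructor
    · exact h.comp (f := fun n : ℕ => (n, true)) (by fun_prop)
    · refine (h.comp (f := fun n : ℕ => (n, false)) (by fun_prop)).of_eq fun n => ?_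
      simp [st]

section

variable {α β : Type} [Primcodable α] [Primcodable β]

theorem reIn_of {R : ℕ → Bool} {S : α → Prop} (h : Defs.REIn R S) : REIn (st R) S := by
  unfold Defs.REIn RecursiveIn at h
  rw [orc_eq] at h
  have h1 := (graph_of_recursiveIn h).comp (f := fun a : α => (encode a, 0)) (by fun_prop)
  refine h1.of_eq fun a => ?_
  simp only [encodek, Part.coe_some, Part.bind_some, Part.mem_map_iff, Part.mem_assert_iff]
  constructor
  · rintro ⟨_, ⟨h2, -⟩, -⟩; exact h2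
  · intro h2; exact ⟨(), ⟨h2, by simp⟩, rfl⟩

theorem not_ok {A : Set ℕ} {c : α → List ℕ × List ℕ} (hc : Computable c) :
    REIn A fun a => ¬ Ok A (c a) := by
  have h : REIn A fun a => (∃ x, x ∈ (c a).1 ∧ x ∉ A) ∨ ∃ x, x ∈ (c a).2 ∧ x ∈ A := by
    refine REIn.or (REIn.ex (S := fun a x => x ∈ (c a).1 ∧ x ∉ A) ?_)
      (REIn.ex (S := fun a x => x ∈ (c a).2 ∧ x ∈ A) ?_)
    · exact REIn.and (REIn.of_re (RE.mem_list (by fun_prop) (by fun_prop)))
        (REIn.not_mem (by fun_prop))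
    · exact REIn.and (REIn.of_re (RE.mem_list (by fun_prop) (by fun_prop)))
        (REIn.mem (by fun_prop))
  refine h.of_eq fun a => ?_
  unfold Ok
  rw [not_and_or]
  push Not
  rfl

theorem is_ok {A : Set ℕ} {c : α → List ℕ × List ℕ} (hc : Computable c) :
    REIn A fun a => Ok A (c a) :=
  REIn.and (REIn.all_mem (S := fun _ x => x ∈ A) (REIn.mem (by fun_prop)) (by fun_prop))
    (REIn.all_mem (S := fun _ x => x ∉ A) (REIn.not_mem (by fun_prop)) (by fun_prop))

/-- normal form: a projection of a relation decidable in the oracle -/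
theorem normal {A : Set ℕ} {S : α → Prop} (h : REIn A S) : ∃ D : α → ℕ → Prop,
    REIn A (fun p : α × ℕ => D p.1 p.2) ∧ REIn A (fun p : α × ℕ => ¬ D p.1 p.2) ∧
      ∀ a, S a ↔ ∃ w, D a w := by
  obtain ⟨R, hR, hS⟩ := h
  obtain ⟨q, hq, hRq⟩ := RE.re_iff.1 hR
  let cc : ℕ → List ℕ × List ℕ := fun k =>
    (decode (α := List ℕ × List ℕ) k.unpair.1).getD ([], [])
  have hcc : Computable cc :=
    Primrec.option_getD.to_comp.comp (by fun_prop) (by fun_prop)
  have hq' : Computable fun p : α × ℕ => q (p.1, cc p.2) p.2.unpair.2 :=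
    hq.comp (g := fun p : α × ℕ => (p.1, cc p.2)) (h := fun p : α × ℕ => p.2.unpair.2)
      (by fun_prop) (by fun_prop)
  refine ⟨fun a w => q (a, cc w) w.unpair.2 = true ∧ Ok A (cc w), ?_, ?_, fun a => ?_⟩
  · exact REIn.and (REIn.of_re (RE.of_bool hq')) (is_ok (by fun_prop))
  · refine (REIn.or (REIn.of_re (RE.ne hq' (Computable.const true)))
      (not_ok (A := A) (c := fun p : α × ℕ => cc p.2) (by fun_prop))).of_eq fun p => ?_
    exact not_and_or.symm
  · rw [hS]
    constructor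
    · rintro ⟨c, h1, h2⟩
      obtain ⟨t, ht⟩ := (hRq (a, c)).1 h1
      refine ⟨Nat.pair (encode c) t, ?_⟩
      have hck : cc (Nat.pair (encode c) t) = c := by
        simp only [cc, Nat.unpair_pair]
        rw [encodek, Option.getD_some]
      simp only [hck, Nat.unpair_pair]
      exact ⟨ht, h2⟩
    · rintro ⟨w, h1, h2⟩
      exact ⟨cc w, (hRq (a, cc w)).2 ⟨_, h1⟩, h2⟩

theorem to_reIn {R : ℕ → Bool} {S : α → Prop} (h : REIn (st R) S) : Defs.REIn R S := by
  classical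
  have h0 : REIn (st R) fun n : ℕ => ∃ a, decode (α := α) n = some a ∧ S a :=
    REIn.ex (S := fun (n : ℕ) (a : α) => decode (α := α) n = some a ∧ S a)
      (REIn.and (REIn.of_re (RE.eq (by fun_prop) (by fun_prop))) (h.comp (by fun_prop)))
  obtain ⟨D, h1, h2, h3⟩ := normal h0
  have h4 : TotIn (st R) fun m => if D m.unpair.1 m.unpair.2 then 0 else 1 := by
    apply recursiveIn_of_graph
    have h5 : REIn (st R) fun p : ℕ × ℕ => (D p.1.unpair.1 p.1.unpair.2 ∧ p.2 = 0) ∨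
        (¬ D p.1.unpair.1 p.1.unpair.2 ∧ p.2 = 1) :=
      REIn.or (REIn.and (h1.comp (f := fun p : ℕ × ℕ => (p.1.unpair.1, p.1.unpair.2))
        (by fun_prop)) (REIn.of_re (RE.eq (by fun_prop) (by fun_prop))))
        (REIn.and (h2.comp (f := fun p : ℕ × ℕ => (p.1.unpair.1, p.1.unpair.2))
        (by fun_prop)) (REIn.of_re (RE.eq (by fun_prop) (by fun_prop))))
    refine h5.of_eq fun p => ?_
    by_cases hp : D p.1.unpair.1 p.1.unpair.2 <;> simp [hp, eq_comm]
  have h6 := Nat.RecursiveIn.comp Nat.RecursiveIn.zero (Nat.RecursiveIn.rfind h4)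
  unfold Defs.REIn RecursiveIn
  rw [orc_eq]
  refine h6.of_eq fun n => ?_
  apply Part.ext
  intro v
  simp only [Part.bind_eq_bind, Part.mem_bind_iff, Nat.mem_rfind, Part.map_eq_map, Part.map_some,
    Part.mem_some_iff, Nat.unpair_pair, Part.mem_map_iff, Part.mem_assert_iff, Part.mem_coe,
    Option.mem_def]
  constructor
  · rintro ⟨w, ⟨h7, -⟩, h8⟩
    have h9 : D n w := by
      by_contra hc
      simp [hc] at h7
    obtain ⟨a, ha1, ha2⟩ := (h3 n).2 ⟨w, h9⟩
    refine ⟨a, ha1, (), ⟨ha2, trivial⟩, ?_⟩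
    have : v = 0 := Part.mem_some_iff.1 h8
    rw [this]; rfl
  · rintro ⟨a, ha1, u, ⟨ha2, -⟩, h8⟩
    have hex := (h3 n).1 ⟨a, ha1, ha2⟩
    refine ⟨Nat.find hex, ⟨by simp [Nat.find_spec hex], fun {k} hk => ?_⟩, ?_⟩
    · simp [Nat.find_min hex hk]
    · rw [← h8]; exact Part.mem_some_iff.2 rfl

/-- relative uniformization -/
theorem unif {A : Set ℕ} {P : α → β → Prop} (h : REIn A fun p : α × β => P p.1 p.2)
    (ht : ∀ a, ∃ b, P a b) : ∃ F : α → β, (∀ a, P a (F a)) ∧
      REIn A fun p : α × β => F p.1 = p.2 := by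
  classical
  obtain ⟨D, h1, h2, h3⟩ := normal h
  let E : α → ℕ → Prop := fun a w => ∃ b, decode (α := β) w.unpair.1 = some b ∧
    D (a, b) w.unpair.2
  have hE : ∀ a, ∃ w, E a w := fun a => by
    obtain ⟨b, hb⟩ := ht a
    obtain ⟨w, hw⟩ := (h3 (a, b)).1 hb
    exact ⟨Nat.pair (encode b) w, b, by simp, by simpa using hw⟩
  have hF : ∀ a, ∃ b, decode (α := β) (Nat.find (hE a)).unpair.1 = some b ∧
    D (a, b) (Nat.find (hE a)).unpair.2 := fun a => Nat.find_spec (hE a)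
  choose F hF1 hF2 using hF
  refine ⟨F, fun a => (h3 (a, F a)).2 ⟨_, hF2 a⟩, ?_⟩
  have h4 : REIn A fun p : α × β => ∃ w : ℕ, (decode (α := β) w.unpair.1 = some p.2 ∧
      D (p.1, p.2) w.unpair.2) ∧ ∀ k < w, decode (α := β) k.unpair.1 = none ∨
        ∃ b, decode (α := β) k.unpair.1 = some b ∧ ¬ D (p.1, b) k.unpair.2 := by
    refine REIn.ex (S := fun (p : α × β) (w : ℕ) => (decode (α := β) w.unpair.1 = some p.2 ∧
      D (p.1, p.2) w.unpair.2) ∧ ∀ k < w, decode (α := β) k.unpair.1 = none ∨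
        ∃ b, decode (α := β) k.unpair.1 = some b ∧ ¬ D (p.1, b) k.unpair.2) ?_
    refine REIn.and (REIn.and (REIn.of_re (RE.eq (by fun_prop) (by fun_prop))) ?_) ?_
    · exact h1.comp (f := fun x : (α × β) × ℕ => ((x.1.1, x.1.2), x.2.unpair.2)) (by fun_prop)
    · refine REIn.all_lt (S := fun (x : (α × β) × ℕ) (k : ℕ) =>
        decode (α := β) k.unpair.1 = none ∨
        ∃ b, decode (α := β) k.unpair.1 = some b ∧ ¬ D (x.1.1, b) k.unpair.2) ?_ (by fun_prop)
      refine REIn.or (REIn.of_re (RE.eq (by fun_prop) (by fun_prop))) ?_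
      refine REIn.ex (S := fun (y : ((α × β) × ℕ) × ℕ) (b : β) =>
        decode (α := β) y.2.unpair.1 = some b ∧ ¬ D (y.1.1.1, b) y.2.unpair.2) ?_
      refine REIn.and (REIn.of_re (RE.eq (by fun_prop) (by fun_prop))) ?_
      exact h2.comp (f := fun z : (((α × β) × ℕ) × ℕ) × β => ((z.1.1.1.1, z.2), z.1.2.unpair.2))
        (by fun_prop)
  refine h4.of_eq fun p => ?_
  obtain ⟨a, b⟩ := p
  dsimp only
  constructor
  · rintro ⟨w, ⟨h5, h6⟩, h7⟩
    have hw : Nat.find (hE a) = w := by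
      rw [Nat.find_eq_iff]
      refine ⟨⟨b, h5, h6⟩, fun k hk ⟨b', h8, h9⟩ => ?_⟩
      rcases h7 k hk with h10 | ⟨b'', h10, h11⟩
      · rw [h10] at h8; cases h8
      · rw [h10] at h8; cases h8; exact h11 h9
    have := hF1 a
    rw [hw, h5] at this
    exact (Option.some.inj this).symm
  · rintro rfl
    refine ⟨Nat.find (hE a), ⟨hF1 a, hF2 a⟩, fun k hk => ?_⟩
    have := Nat.find_min (hE a) hk
    cases hd : decode (α := β) k.unpair.1 with
    | none => exact Or.inl rfl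
    | some b => exact Or.inr ⟨b, rfl, fun h8 => this ⟨b, hd, h8⟩⟩

end

/-- the finite information `c` is correct for the string `τ` -/
def okS (τ : Str) (c : List ℕ × List ℕ) : Prop :=
  (∀ x ∈ c.1, τ[x]? = some true) ∧ ∀ x ∈ c.2, τ[x]? = some false

theorem okS_re {α : Type} [Primcodable α] {τ : α → Str} {c : α → List ℕ × List ℕ}
    (hτ : Computable τ) (hc : Computable c) : REPred fun a => okS (τ a) (c a) :=
  RE.and (RE.all_mem (p := fun a x => (τ a)[x]? = some true) (RE.eq (by fun_prop) (by fun_prop))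
    (by fun_prop))
    (RE.all_mem (p := fun a x => (τ a)[x]? = some false) (RE.eq (by fun_prop) (by fun_prop))
    (by fun_prop))

theorem get_mono {τ τ' : Str} (h : τ <+: τ') {x : ℕ} {b : Bool} (h1 : τ[x]? = some b) :
    τ'[x]? = some b := by
  have : x < τ.length := by
    by_contra hc
    rw [List.getElem?_eq_none (by omega)] at h1
    cases h1
  rw [prefix_getElem? h this, h1]

theorem okS.mono {τ τ' : Str} {c : List ℕ × List ℕ} (h : okS τ c) (h1 : τ <+: τ') : okS τ' c :=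
  ⟨fun x hx => get_mono h1 (h.1 x hx), fun x hx => get_mono h1 (h.2 x hx)⟩

theorem seg_get {A : ℕ → Bool} {n x : ℕ} {b : Bool} (h : (seg A n)[x]? = some b) : A x = b := by
  have : x < n := by
    by_contra hc
    rw [List.getElem?_eq_none (by rw [seg_length]; omega)] at h
    cases h
  rw [seg_getElem? A this] at h
  exact Option.some.inj h

theorem okS.ok {A : ℕ → Bool} {n : ℕ} {c : List ℕ × List ℕ} (h : okS (seg A n) c) :
    Ok (st A) c :=
  ⟨fun x hx => seg_get (h.1 x hx), fun x hx h1 => by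
    have h2 := seg_get (h.2 x hx)
    rw [show A x = true from h1] at h2
    cases h2⟩

theorem ok_seg {A : ℕ → Bool} {c : List ℕ × List ℕ} (h : Ok (st A) c) :
    ∃ n, okS (seg A n) c := by
  refine ⟨(c.1 ++ c.2).sum + 1, fun x hx => ?_, fun x hx => ?_⟩
  · have : x ≤ (c.1 ++ c.2).sum :=
      List.single_le_sum (fun _ _ => Nat.zero_le _) _ (List.mem_append_left _ hx)
    rw [seg_getElem? A (by omega), show A x = true from h.1 x hx]
  · have : x ≤ (c.1 ++ c.2).sum :=
      List.single_le_sum (fun _ _ => Nat.zero_le _) _ (List.mem_append_right _ hx)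
    have h1 : A x = false := Bool.eq_false_iff.2 (h.2 x hx)
    rw [seg_getElem? A (by omega), h1]

theorem pre_re {α : Type} [Primcodable α] {σ τ : α → Str} (hσ : Computable σ)
    (hτ : Computable τ) : ComputablePred fun a => σ a <+: τ a := by
  have h := RE.cp_eq hσ (ctake hτ (RE.clength hσ))
  have : (fun a => σ a <+: τ a) = fun a => σ a = (τ a).take (σ a).length :=
    funext fun a => propext List.prefix_iff_eq_take
  rw [this]; exact h

end Pool.Agent.H917Z.HIF
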