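import Pool.Agent.H917Z.HIF.St

set_option autoImplicit false

namespace Pool.Agent.H917Z.HIF

namespace St

/-- the tooth -/
def tooth : St → Str
  | base _ τ => τ
  | nA _ _ t _ => t
  | nB _ _ t _ _ _ => t

/-- substate for the infinitary outcome -/
def infOf : St → St
  | base e τ => base e τ
  | nA _ _ _ inf => inf
  | nB _ _ _ inf _ _ => inf

/-- substate for the finitary outcome -/
def finOf : St → St
  | base e τ => base e τ
  | nA _ _ _ inf => inf
  | nB _ _ _ _ _ fin => fin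

/-- counter -/
def cnt : St → ℕ
  | base _ _ => 0
  | nA _ n _ _ => n
  | nB _ n _ _ _ _ => n

/-- waiting -/
def isB : St → Bool
  | base _ _ => false
  | nA _ _ _ _ => false
  | nB _ _ _ _ _ _ => true

/-- leaves of the infinitary substate that are not lent -/
def ol : St → List Str
  | base _ _ => []
  | nA _ _ _ inf => leaves inf
  | nB _ _ _ inf b _ => rem b (leaves inf)

variable (cov : ℕ → ℕ → ℕ → Str → Bool)

/-- the four kinds of transitions -/
inductive Tr (e s : ℕ) : St → St → Prop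
  | ex (n : ℕ) (t t' : Str) (inf inf' : St) (h1 : ∀ y ∈ leaves inf, cov e n s y = true)
      (h2 : t <+: t') (h3 : Stretch (step cov s inf) inf') :
      Tr e s (nA e n t inf) (nA e (n + 1) t' inf')
  | bo (n : ℕ) (t t' y τ : Str) (inf inf' : St) (h1 : y ∈ leaves inf) (h2 : cov e n s y = false)
      (h3 : t <+: t') (h4 : Stretch inf inf') (h5 : y <+: τ)
      (h6 : Ext (rem y (leaves inf)) (rem y (leaves inf'))) :
      Tr e s (nA e n t inf) (nB e n t' inf' y (base (e + 1) τ))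
  | su (n : ℕ) (t t' b ρ : Str) (inf inf' fin : St) (h1 : b <+: ρ) (h2 : cov e n s ρ = true)
      (h3 : t <+: t') (h4 : Stretch (repl b ρ inf) inf') :
      Tr e s (nB e n t inf b fin) (nA e n t' inf')
  | wa (n : ℕ) (t t' b : Str) (inf inf' fin fin' : St)
      (h1 : first (cov e n s) (cands s (leaves fin)) = none) (h2 : t <+: t')
      (h3 : Stretch inf inf') (h4 : Stretch (step cov s fin) fin')
      (h5 : Ext (rem b (leaves inf)) (rem b (leaves inf'))) :
      Tr e s (nB e n t inf b fin) (nB e n t' inf' b fin')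

theorem tr_of {e s : ℕ} {x x' : St} (hx : WF x) (hl : lvl x = e) (hb : ∀ τ, x ≠ base e τ)
    (h : Stretch (step cov s x) x') : Tr cov e s x x' := by
  have hw := (step_spec cov s hx).1
  cases x with
  | base e' τ => cases hl; exact absurd rfl (hb τ)
  | nA e' n t inf =>
    obtain rfl : e' = e := hl
    simp only [step] at h hw
    rcases hf : first (fun y => !cov e' n s y) (leaves inf) with _ | y
    · rw [hf] at h
      obtain ⟨t', inf', h1, h2, rfl⟩ := h.of_nA
      exact Tr.ex n t t' inf inf' (fun y hy => by simpa using first_none hf y hy) h1 h2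
    · rw [hf] at h hw
      obtain ⟨t', inf', fin', h1, h2, h3, h4, rfl⟩ := h.of_nB hw
      obtain ⟨τ, h5, rfl⟩ := h3.of_base
      exact Tr.bo n t t' y τ inf inf' (first_some hf).1 (by simpa using (first_some hf).2)
        h1 h2 h5 h4
  | nB e' n t inf b fin =>
    obtain rfl : e' = e := hl
    simp only [step] at h hw
    rcases hf : first (cov e' n s) (cands s (leaves fin)) with _ | ρ
    · rw [hf] at h hw
      obtain ⟨t', inf', fin', h1, h2, h3, h4, rfl⟩ := h.of_nB hw
      exact Tr.wa n t t' b inf inf' fin fin' hf h1 h2 h3 h4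
    · rw [hf] at h
      obtain ⟨t', inf', h1, h2, rfl⟩ := h.of_nA
      obtain ⟨u, hu, hρ⟩ := mem_cands (first_some hf).1
      exact Tr.su n t t' b ρ inf inf' fin ((hx.2.2.2.2.2.2 u hu).trans hρ) (first_some hf).2 h1 h2

/-- the sequence of states of a strategy on the true path at its visits -/
structure Run (e : ℕ) (σ : Str) where
  x : ℕ → St
  s : ℕ → ℕ
  mono : StrictMono s
  wf : ∀ k, WF (x k)
  lv : ∀ k, lvl (x k) = e
  start : x 0 = base e σ
  nxt : ∀ k, Stretch (step cov (s k) (x k)) (x (k + 1))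
  sub : ∀ k, ∀ y ∈ leaves (x k), y ∈ L cov (s k)
  all : ∀ k, ∀ τ ∈ L cov (s k), σ <+: τ → τ ∈ leaves (x k)
  K : ℕ
  oth : ∀ k, ∃ O : List Str, O.length ≤ K ∧ ∀ τ ∈ L cov (s k), τ ∈ O ∨ τ ∈ leaves (x k)

/-- the root -/
def run0 : Run cov 0 [] where
  x := glob cov
  s := id
  mono := strictMono_id
  wf := glob_wf cov
  lv := by
    intro k
    induction k with
    | zero => rfl
    | succ k ih => exact (step_spec cov k (glob_wf cov k)).2.1.trans ih
  start := rfl
  nxt := fun _ => Stretch.refl _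
  sub := fun _ _ h => h
  all := fun _ _ h _ => h
  K := 0
  oth := fun _ => ⟨[], le_rfl, fun _ h => Or.inr h⟩

variable {cov}

namespace Run

variable {e : ℕ} {σ : Str} (R : Run cov e σ)

theorem ext (k : ℕ) : ∀ y ∈ leaves (R.x k), σ <+: y := by
  induction k with
  | zero => rw [R.start]; intro y hy; simp only [leaves, List.mem_singleton] at hy; rw [hy]
  | succ k ih =>
    intro y hy
    have h1 := step_spec cov (R.s k) (R.wf k)
    obtain ⟨z, hz, h2⟩ := ((R.nxt k).wf h1.1).2.1.mem hy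
    obtain ⟨w, hw, h3⟩ := h1.2.2 z hz
    exact (ih w hw).trans (h3.trans h2)

theorem one : ∃ t τ, σ ++ [false] <+: t ∧ σ ++ [true] <+: τ ∧
    R.x 1 = nA e 0 t (base (e + 1) τ) := by
  have h := R.nxt 0
  rw [R.start] at h
  obtain ⟨t, inf, h1, h2, h3⟩ := Stretch.of_nA h
  obtain ⟨τ, h4, rfl⟩ := h2.of_base
  exact ⟨t, τ, h1, h4, h3⟩

theorem node (k : ℕ) : (∀ τ, R.x (k + 1) ≠ base e τ) ∧ σ ++ [false] <+: tooth (R.x (k + 1)) ∧
    ∀ y ∈ leaves (infOf (R.x (k + 1))), σ ++ [true] <+: y := by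
  induction k with
  | zero =>
    obtain ⟨t, τ, h1, h2, h3⟩ := R.one
    rw [h3]
    refine ⟨fun _ h => (by cases h), h1, fun y hy => ?_⟩
    simp only [infOf, leaves, List.mem_singleton] at hy
    rw [hy]; exact h2
  | succ k ih =>
    obtain ⟨i1, i2, i3⟩ := ih
    have hw := R.wf (k + 1)
    have h := tr_of cov hw (R.lv _) i1 (R.nxt (k + 1))
    generalize R.x (k + 1) = a at *
    generalize R.x (k + 1 + 1) = b at *
    cases h with
    | ex n t t' inf inf' h1 h2 h3 =>
      refine ⟨fun _ h => (by cases h), i2.trans h2, fun y hy => ?_⟩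
      have h4 := step_spec cov (R.s (k + 1)) hw.1
      obtain ⟨z, hz, h5⟩ := (h3.wf h4.1).2.1.mem hy
      obtain ⟨w, hw', h6⟩ := h4.2.2 z hz
      exact (i3 w hw').trans (h6.trans h5)
    | bo n t t' y τ inf inf' h1 h2 h3 h4 h5 h6 =>
      refine ⟨fun _ h => (by cases h), i2.trans h3, fun y hy => ?_⟩
      obtain ⟨z, hz, h7⟩ := (h4.wf hw.1).2.1.mem hy
      exact (i3 z hz).trans h7
    | su n t t' b ρ inf inf' fin h1 h2 h3 h4 =>
      refine ⟨fun _ h => (by cases h), i2.trans h3, fun y hy => ?_⟩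
      obtain ⟨z, hz, h7⟩ := (((Stretch.single h1 inf).trans h4).wf hw.1).2.1.mem hy
      exact (i3 z hz).trans h7
    | wa n t t' b inf inf' fin fin' h1 h2 h3 h4 h5 =>
      refine ⟨fun _ h => (by cases h), i2.trans h2, fun y hy => ?_⟩
      obtain ⟨z, hz, h7⟩ := (h3.wf hw.1).2.1.mem hy
      exact (i3 z hz).trans h7

theorem tr (k : ℕ) : Tr cov e (R.s (k + 1)) (R.x (k + 1)) (R.x (k + 1 + 1)) :=
  tr_of cov (R.wf _) (R.lv _) (R.node k).1 (R.nxt (k + 1))

theorem tooth_mem (x : St) : tooth x ∈ leaves x := by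
  cases x <;> simp [tooth, leaves]

include R in
theorem tooth_out (N : ℕ) : ∃ s, N ≤ s ∧ ∃ τ ∈ L cov s, σ ++ [false] <+: τ :=
  ⟨R.s (N + 1), (Nat.le_succ N).trans (R.mono.id_le (N + 1)), _, R.sub _ _ (tooth_mem _),
    (R.node N).2.1⟩

/-- expansionary visits -/
def IsExp (k : ℕ) : Prop :=
  ∃ n t inf, R.x k = nA e n t inf ∧ ∀ y ∈ leaves inf, cov e n (R.s k) y = true

theorem nonexp (k : ℕ) (h : ¬ R.IsExp (k + 1)) :
    Stretch (infOf (R.x (k + 1))) (infOf (R.x (k + 1 + 1))) ∧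
      cnt (R.x (k + 1 + 1)) = cnt (R.x (k + 1)) := by
  have ht := R.tr k
  unfold IsExp at h
  generalize R.x (k + 1) = a at *
  generalize R.x (k + 1 + 1) = b at *
  cases ht with
  | ex n t t' inf inf' h1 h2 h3 => exact absurd ⟨n, t, inf, rfl, h1⟩ h
  | bo n t t' y τ inf inf' h1 h2 h3 h4 h5 h6 => exact ⟨h4, rfl⟩
  | su n t t' b ρ inf inf' fin h1 h2 h3 h4 => exact ⟨(Stretch.single h1 inf).trans h4, rfl⟩
  | wa n t t' b inf inf' fin fin' h1 h2 h3 h4 h5 => exact ⟨h3, rfl⟩

theorem nonexp_le {a b : ℕ} (ha : 1 ≤ a) (hab : a ≤ b) (h : ∀ k, a ≤ k → k < b → ¬ R.IsExp k) :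
    Stretch (infOf (R.x a)) (infOf (R.x b)) ∧ cnt (R.x b) = cnt (R.x a) := by
  induction b, hab using Nat.le_induction with
  | base => exact ⟨Stretch.refl _, rfl⟩
  | succ b hab ih =>
    obtain ⟨i1, i2⟩ := ih fun k h1 h2 => h k h1 (by omega)
    obtain ⟨c, rfl⟩ : ∃ c, b = c + 1 := ⟨b - 1, by omega⟩
    obtain ⟨j1, j2⟩ := R.nonexp c (h _ hab (by omega))
    exact ⟨i1.trans j1, j2.trans i2⟩

theorem exp_step {k : ℕ} (h : R.IsExp k) :
    Stretch (step cov (R.s k) (infOf (R.x k))) (infOf (R.x (k + 1))) ∧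
      cnt (R.x (k + 1)) = cnt (R.x k) + 1 := by
  obtain ⟨n, t, inf, h1, h2⟩ := h
  cases k with
  | zero => rw [R.start] at h1; cases h1
  | succ k =>
    have ht := R.tr k
    rw [h1] at ht ⊢
    generalize R.x (k + 1 + 1) = b at *
    cases ht with
    | ex n t t' inf inf' h1 h2 h3 => exact ⟨h3, rfl⟩
    | bo n t t' y τ inf inf' h3 h4 h5 h6 h7 h8 => rw [h2 y h3] at h4; cases h4

theorem exp_pos {k : ℕ} (h : R.IsExp k) : 1 ≤ k := by
  obtain ⟨n, t, inf, h1, h2⟩ := h
  cases k with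
  | zero => rw [R.start] at h1; cases h1
  | succ k => omega

theorem caseA (hinf : {k | R.IsExp k}.Infinite) : ∃ σ', σ ++ [true] <+: σ' ∧
    Nonempty (Run cov (e + 1) σ') ∧ ∀ n, ∃ s, (∃ τ ∈ L cov s, σ ++ [true] <+: τ) ∧
      ∀ τ ∈ L cov s, σ ++ [true] <+: τ → cov e n s τ = true := by
  set k : ℕ → ℕ := Nat.nth R.IsExp with hk
  have hmem : ∀ j, R.IsExp (k j) := fun j => Nat.nth_mem_of_infinite hinf j
  have hmono : StrictMono k := Nat.nth_strictMono hinf
  have hleast := fun j => Nat.isLeast_nth_of_infinite hinf j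
  have h0 : ∀ i, 1 ≤ i → i < k 0 → ¬ R.IsExp i := fun i _ h1 h2 =>
    absurd ((hleast 0).2 ⟨h2, fun _ h => absurd h (Nat.not_lt_zero _)⟩) (not_le.2 h1)
  have hs : ∀ j i, k j + 1 ≤ i → i < k (j + 1) → ¬ R.IsExp i := fun j i h0 h1 h2 =>
    absurd ((hleast (j + 1)).2 ⟨h2, fun l hl => lt_of_le_of_lt
      (hmono.monotone (Nat.lt_succ_iff.1 hl)) h0⟩) (not_le.2 h1)
  obtain ⟨t, τ, g1, g2, g3⟩ := R.one
  obtain ⟨a1, a2⟩ := R.nonexp_le le_rfl (R.exp_pos (hmem 0)) h0
  rw [g3] at a1 a2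
  obtain ⟨σ', b1, b2⟩ := Stretch.of_base a1
  have hnx : ∀ j, Stretch (step cov (R.s (k j)) (infOf (R.x (k j)))) (infOf (R.x (k (j + 1)))) ∧
      cnt (R.x (k (j + 1))) = cnt (R.x (k j)) + 1 := by
    intro j
    obtain ⟨c1, c2⟩ := R.exp_step (hmem j)
    obtain ⟨d1, d2⟩ := R.nonexp_le (a := k j + 1) (b := k (j + 1)) (by omega)
      (hmono (Nat.lt_succ_self j)) (hs j)
    exact ⟨c1.trans d1, d2.trans c2⟩
  have hcnt : ∀ j, cnt (R.x (k j)) = j := by
    intro j
    induction j with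
    | zero => exact a2
    | succ j ih => rw [(hnx j).2, ih]
  have hnode : ∀ j, σ ++ [false] <+: tooth (R.x (k j)) ∧
      ∀ y ∈ leaves (infOf (R.x (k j))), σ ++ [true] <+: y := by
    intro j
    obtain ⟨c, hc⟩ : ∃ c, k j = c + 1 := ⟨k j - 1, by have := R.exp_pos (hmem j); omega⟩
    rw [hc]; exact (R.node c).2
  have hall : ∀ j, ∀ τ ∈ L cov (R.s (k j)), σ ++ [true] <+: τ →
      τ ∈ leaves (infOf (R.x (k j))) := by
    intro j τ h1 h2
    have h3 := R.all (k j) τ h1 ((List.prefix_append _ _).trans h2)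
    have h4 := (hnode j).1
    obtain ⟨n, t, inf, h5, -⟩ := hmem j
    rw [h5] at h3 h4 ⊢
    simp only [leaves, List.mem_cons] at h3
    rcases h3 with rfl | h3
    · exact absurd rfl ((inc_split σ).mono h4 h2).ne
    · exact h3
  refine ⟨σ', g2.trans b1, ⟨⟨fun j => infOf (R.x (k j)), fun j => R.s (k j), R.mono.comp hmono,
    ?_, ?_, b2, fun j => (hnx j).1, ?_, fun j τ h1 h2 => hall j τ h1 ((g2.trans b1).trans h2),
    R.K + 1, ?_⟩⟩, ?_⟩
  · intro j
    have hw := R.wf (k j)
    obtain ⟨n, t, inf, h5, -⟩ := hmem j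
    rw [h5] at hw ⊢
    exact hw.1
  · intro j
    have hw := R.wf (k j)
    obtain ⟨n, t, inf, h5, -⟩ := hmem j
    rw [h5] at hw ⊢
    exact hw.2.1
  · intro j y hy
    apply R.sub (k j)
    obtain ⟨n, t, inf, h5, -⟩ := hmem j
    rw [h5] at hy ⊢
    exact List.mem_cons_of_mem _ hy
  · intro j
    obtain ⟨O, h1, h2⟩ := R.oth (k j)
    obtain ⟨n, t, inf, h5, -⟩ := hmem j
    refine ⟨t :: O, by simp only [List.length_cons]; omega, fun τ hτ => ?_⟩
    have := h2 τ hτ
    rw [h5] at this ⊢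
    simp only [leaves, List.mem_cons, infOf] at this ⊢
    tauto
  · intro n
    refine ⟨R.s (k n), ?_, fun τ h1 h2 => ?_⟩
    · obtain ⟨y, hy⟩ := leaves_ne (infOf (R.x (k n)))
      refine ⟨y, ?_, (hnode n).2 y hy⟩
      apply R.sub (k n)
      obtain ⟨n', t, inf, h5, -⟩ := hmem n
      rw [h5] at hy ⊢
      exact List.mem_cons_of_mem _ hy
    · have h3 := hall n τ h1 h2
      have h4 := hcnt n
      obtain ⟨n', t, inf, h5, h6⟩ := hmem n
      rw [h5] at h3 h4
      cases h4
      exact h6 τ h3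

theorem countP_ext {p q : Str → Bool} {l l' : List Str} (h : Ext l l')
    (hpq : ∀ y y', y <+: y' → q y' = true → p y = true) : l'.countP q ≤ l.countP p := by
  obtain ⟨S, hS, rfl⟩ := h
  rw [List.countP_map]
  exact List.countP_mono_left fun y _ hy => hpq y (S y) (hS y) hy

theorem countP_rem_lt {p : Str → Bool} {l : List Str} {y : Str} (hy : y ∈ l) (hp : p y = true) :
    (rem y l).countP p < l.countP p := by
  induction l with
  | nil => cases hy
  | cons a l ih =>
    unfold rem at *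
    by_cases ha : a = y
    · subst ha
      rw [List.filter_cons_of_neg (by simp), List.countP_cons_of_pos hp]
      exact Nat.lt_succ_of_le (List.filter_sublist.countP_le)
    · have hy' : y ∈ l := by
        rcases List.mem_cons.1 hy with h | h
        · exact absurd h.symm ha
        · exact h
      rw [List.filter_cons_of_pos (by simpa using ha), List.countP_cons, List.countP_cons]
      have := ih hy'
      omega

theorem countP_rr {p : Str → Bool} {b ρ : Str} (hp : p ρ = false) (l : List Str) :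
    (l.map (rr b ρ)).countP p ≤ (rem b l).countP p := by
  unfold rem
  rw [List.countP_map, List.countP_filter]
  refine List.countP_mono_left fun y _ hy => ?_
  by_cases h : y = b
  · simp [rr, h, hp] at hy
  · simpa [rr, h] using hy

variable (hs : ∀ e n s s' y, s ≤ s' → cov e n s y = true → cov e n s' y = true)
  (hy : ∀ e n s y y', y <+: y' → cov e n s y = true → cov e n s y' = true)

/-- potential -/
def pot (k : ℕ) : ℕ :=
  2 * (ol (R.x k)).countP (fun y => !cov e (cnt (R.x k)) (R.s k) y) + (isB (R.x k)).toNat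

include hs hy in
theorem pot_step (k : ℕ) (h : ¬ R.IsExp (k + 1)) : R.pot (k + 1 + 1) < R.pot (k + 1) ∨
    (R.pot (k + 1 + 1) ≤ R.pot (k + 1) ∧ isB (R.x (k + 1)) = true) := by
  have ht := R.tr k
  have hw := R.wf (k + 1)
  have hle : R.s (k + 1) ≤ R.s (k + 1 + 1) := R.mono.monotone (Nat.le_succ _)
  have key : ∀ n y y', y <+: y' → (!cov e n (R.s (k + 1 + 1)) y') = true →
      (!cov e n (R.s (k + 1)) y) = true := by
    intro n y y' h1 h2
    cases h3 : cov e n (R.s (k + 1)) y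
    · rfl
    · rw [hs e n _ _ y' hle (hy e n _ y y' h1 h3)] at h2; cases h2
  unfold IsExp at h
  unfold pot
  generalize R.x (k + 1) = a at *
  generalize R.x (k + 1 + 1) = b at *
  cases ht with
  | ex n t t' inf inf' h1 h2 h3 => exact absurd ⟨n, t, inf, rfl, h1⟩ h
  | bo n t t' y τ inf inf' h1 h2 h3 h4 h5 h6 =>
    left
    have i1 := countP_ext (p := fun y => !cov e n (R.s (k + 1)) y)
      (q := fun y => !cov e n (R.s (k + 1 + 1)) y) h6 (key n)
    have i2 := countP_rem_lt (p := fun y => !cov e n (R.s (k + 1)) y) h1 (by simp [h2])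
    simp only [ol, cnt, isB, Bool.toNat_true, Bool.toNat_false]
    omega
  | su n t t' b ρ inf inf' fin h1 h2 h3 h4 =>
    left
    have i1 := countP_ext (p := fun y => !cov e n (R.s (k + 1)) y)
      (q := fun y => !cov e n (R.s (k + 1 + 1)) y) (h4.wf (wf_repl h1 hw.1)).2.1 (key n)
    rw [leaves_repl h1 hw.1] at i1
    have i2 := countP_rr (p := fun y => !cov e n (R.s (k + 1)) y) (b := b) (ρ := ρ)
      (by simp [h2]) (leaves inf)
    simp only [ol, cnt, isB, Bool.toNat_true, Bool.toNat_false]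
    omega
  | wa n t t' b inf inf' fin fin' h1 h2 h3 h4 h5 =>
    right
    have i1 := countP_ext (p := fun y => !cov e n (R.s (k + 1)) y)
      (q := fun y => !cov e n (R.s (k + 1 + 1)) y) h5 (key n)
    simp only [ol, cnt, isB, Bool.toNat_true]
    exact ⟨by omega, trivial⟩

include hs hy in
theorem ev_B (hfin : {k | R.IsExp k}.Finite) : ∃ k0, ∀ k, k0 ≤ k → isB (R.x k) = true := by
  classical
  obtain ⟨N, hN⟩ := hfin.bddAbove
  have hne : ∀ k, N ≤ k → ¬ R.IsExp (k + 1) := fun k hk h => by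
    have := hN h
    omega
  have hex : ∃ v, ∃ k, N ≤ k ∧ R.pot (k + 1) = v := ⟨_, N, le_rfl, rfl⟩
  obtain ⟨k1, h1, h2⟩ := Nat.find_spec hex
  have hmin : ∀ k, N ≤ k → R.pot (k1 + 1) ≤ R.pot (k + 1) := fun k hk => by
    rw [h2]; exact Nat.find_min' hex ⟨k, hk, rfl⟩
  have hle : ∀ k, k1 ≤ k → R.pot (k + 1) ≤ R.pot (k1 + 1) := by
    intro k hk
    induction k, hk using Nat.le_induction with
    | base => exact le_rfl
    | succ k hk ih =>
      rcases R.pot_step hs hy k (hne k (by omega)) with h | h <;> omega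
  refine ⟨k1 + 1, fun k hk => ?_⟩
  obtain ⟨c, rfl⟩ : ∃ c, k = c + 1 := ⟨k - 1, by omega⟩
  rcases R.pot_step hs hy c (hne c (by omega)) with h | h
  · have := hmin (c + 1) (by omega)
    have := hle c (by omega)
    omega
  · exact h.2

include hs hy in
theorem caseB (hfin : {k | R.IsExp k}.Finite) : ∃ σ', σ ++ [true] <+: σ' ∧
    ∃ R' : Run cov (e + 1) σ', ∃ n, ∀ k,
      first (cov e n (R'.s k)) (cands (R'.s k) (leaves (R'.x k))) = none := by
  classical
  have hex := R.ev_B hs hy hfin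
  set k0 := Nat.find hex with hk0
  have hB : ∀ k, k0 ≤ k → isB (R.x k) = true := Nat.find_spec hex
  have h2 : 2 ≤ k0 := by
    by_contra h
    have := hB 1 (by omega)
    obtain ⟨t, τ, -, -, g3⟩ := R.one
    rw [g3] at this; cases this
  obtain ⟨c, hc⟩ : ∃ c, k0 = c + 1 + 1 := ⟨k0 - 2, by omega⟩
  have hnB : isB (R.x (c + 1)) = false := by
    have := Nat.find_min hex (show c + 1 < Nat.find hex by omega)
    cases h : isB (R.x (c + 1))
    · rfl
    · refine absurd (fun k hk => ?_) this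
      rcases Nat.eq_or_lt_of_le hk with h3 | h3
      · rw [← h3]; exact h
      · exact hB k (by omega)
  have hfirst : ∃ n t inf b τ, R.x (c + 1 + 1) = nB e n t inf b (base (e + 1) τ) := by
    have ht := R.tr c
    have h3 := hB (c + 1 + 1) (by omega)
    generalize R.x (c + 1) = a at *
    generalize R.x (c + 1 + 1) = b at *
    cases ht with
    | ex n t t' inf inf' h1 h2 h3 => cases h3
    | bo n t t' y τ inf inf' h1 h2 h3 h4 h5 h6 => exact ⟨_, _, _, _, _, rfl⟩
    | su n t t' b ρ inf inf' fin h1 h2 h3 h4 => cases hnB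
    | wa n t t' b inf inf' fin fin' h1 h2 h3 h4 h5 => cases hnB
  obtain ⟨n, t0, inf0, b, σ', hx0⟩ := hfirst
  have hstep : ∀ j t inf fin, R.x (c + 1 + 1 + j) = nB e n t inf b fin →
      first (cov e n (R.s (c + 1 + 1 + j))) (cands (R.s (c + 1 + 1 + j)) (leaves fin)) = none ∧
      ∃ t' inf' fin', R.x (c + 1 + 1 + (j + 1)) = nB e n t' inf' b fin' ∧ sz inf' = sz inf ∧
        Stretch (step cov (R.s (c + 1 + 1 + j)) fin) fin' := by
    intro j t inf fin h
    have ht := R.tr (c + 1 + j)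
    have hw := R.wf (c + 1 + 1 + j)
    have h3 := hB (c + 1 + 1 + (j + 1)) (by omega)
    rw [show c + 1 + j + 1 = c + 1 + 1 + j by omega,
      show c + 1 + 1 + j + 1 = c + 1 + 1 + (j + 1) by omega, h] at ht
    rw [h] at hw
    generalize R.x (c + 1 + 1 + (j + 1)) = z at *
    cases ht with
    | su _ _ t' _ ρ _ inf' _ g1 g2 g3 g4 => cases h3
    | wa _ _ t' _ _ inf' _ fin' g1 g2 g3 g4 g5 =>
      exact ⟨g1, _, _, _, rfl, (g3.wf hw.1).2.2.2, g4⟩
  have hshape : ∀ j, ∃ t inf fin, R.x (c + 1 + 1 + j) = nB e n t inf b fin ∧ sz inf = sz inf0 := by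
    intro j
    induction j with
    | zero => exact ⟨_, _, _, hx0, rfl⟩
    | succ j ih =>
      obtain ⟨t, inf, fin, h1, h2⟩ := ih
      obtain ⟨-, t', inf', fin', h3, h4, -⟩ := hstep j t inf fin h1
      exact ⟨_, _, _, h3, h4.trans h2⟩
  have hw0 := R.wf (c + 1 + 1)
  have hn0 := (R.node (c + 1)).2.2
  rw [hx0] at hw0 hn0
  have hbσ : b <+: σ' := hw0.2.2.2.2.2.2 σ' (by simp [leaves])
  refine ⟨σ', (hn0 b hw0.2.2.2.1).trans hbσ, ⟨fun j => finOf (R.x (c + 1 + 1 + j)),
    fun j => R.s (c + 1 + 1 + j), R.mono.comp (fun a b h => by omega), ?_, ?_, by rw [hx0]; rfl,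
    ?_, ?_, ?_, R.K + 1 + sz inf0, ?_⟩, n, ?_⟩
  · intro j
    have hw := R.wf (c + 1 + 1 + j)
    obtain ⟨t, inf, fin, h1, -⟩ := hshape j
    rw [h1] at hw ⊢
    exact hw.2.2.2.2.1
  · intro j
    have hw := R.wf (c + 1 + 1 + j)
    obtain ⟨t, inf, fin, h1, -⟩ := hshape j
    rw [h1] at hw ⊢
    exact hw.2.2.2.2.2.1
  · intro j
    obtain ⟨t, inf, fin, h1, -⟩ := hshape j
    obtain ⟨-, t', inf', fin', h3, -, h4⟩ := hstep j t inf fin h1
    rw [h1, h3]
    exact h4
  · intro j y hy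
    apply R.sub (c + 1 + 1 + j)
    obtain ⟨t, inf, fin, h1, -⟩ := hshape j
    rw [h1] at hy ⊢
    exact List.mem_cons_of_mem _ (List.mem_append_right _ hy)
  · intro j τ h1 h2
    have h3 := R.all (c + 1 + 1 + j) τ h1
      ((List.prefix_append _ _).trans (((hn0 b hw0.2.2.2.1).trans hbσ).trans h2))
    have hw := R.wf (c + 1 + 1 + j)
    obtain ⟨t, inf, fin, h4, -⟩ := hshape j
    rw [h4] at h3 hw ⊢
    simp only [leaves, List.mem_cons, List.mem_append, mem_rem] at h3
    rcases h3 with rfl | h3 | h3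
    · exact absurd (hbσ.trans h2) (hw.2.2.1 b hw.2.2.2.1).2
    · exact absurd (hbσ.trans h2) (anti hw.1 τ h3.1 b hw.2.2.2.1 h3.2).2
    · exact h3
  · intro j
    obtain ⟨O, h1, h2⟩ := R.oth (c + 1 + 1 + j)
    obtain ⟨t, inf, fin, h4, h5⟩ := hshape j
    refine ⟨t :: (O ++ leaves inf), ?_, fun τ hτ => ?_⟩
    · have := length_le_sz inf
      simp only [List.length_cons, List.length_append]; omega
    · have := h2 τ hτ
      rw [h4] at this ⊢
      simp only [leaves, List.mem_cons, List.mem_append, mem_rem, finOf] at this ⊢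
      tauto
  · intro j
    obtain ⟨t, inf, fin, h1, -⟩ := hshape j
    have := (hstep j t inf fin h1).1
    simp only [h1]
    exact this

end Run

end St

end Pool.Agent.H917Z.HIF
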