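import Mathlib

/-!
States of a priority construction of a rank one point of computably dominated degree.
-/

set_option autoImplicit false

namespace Pool.Agent.H917Z.HIF

abbrev Str := List Bool

/-- states of the strategies -/
inductive St : Type
  | base (e : ℕ) (τ : Str) : St
  | nA (e n : ℕ) (t : Str) (inf : St) : St
  | nB (e n : ℕ) (t : Str) (inf : St) (b : Str) (fin : St) : St

/-- incomparable strings -/
def Inc (a b : Str) : Prop := ¬ a <+: b ∧ ¬ b <+: a

theorem Inc.symm {a b : Str} (h : Inc a b) : Inc b a := ⟨h.2, h.1⟩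

theorem Inc.mono {a b a' b' : Str} (h : Inc a b) (ha : a <+: a') (hb : b <+: b') : Inc a' b' := by
  constructor
  · intro h1
    rcases List.prefix_or_prefix_of_prefix (ha.trans h1) hb with h2 | h2
    exacts [h.1 h2, h.2 h2]
  · intro h1
    rcases List.prefix_or_prefix_of_prefix ha (hb.trans h1) with h2 | h2
    exacts [h.1 h2, h.2 h2]

theorem Inc.ne {a b : Str} (h : Inc a b) : a ≠ b := fun e => h.1 (e ▸ List.prefix_rfl)

theorem inc_split (σ : Str) : Inc (σ ++ [false]) (σ ++ [true]) := by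
  constructor <;> intro h <;>
  · have := h.eq_of_length (by simp)
    simp at this

/-- replace the string `τ` by `ρ` -/
def rr (τ ρ x : Str) : Str := if x = τ then ρ else x

theorem rr_pre {τ ρ : Str} (h : τ <+: ρ) (x : Str) : x <+: rr τ ρ x := by
  unfold rr
  split_ifs with h1
  · rw [h1]; exact h
  · exact List.prefix_rfl

/-- remove a string from a list -/
def rem (b : Str) (l : List Str) : List Str := l.filter (fun y => y ≠ b)

theorem mem_rem {b y : Str} {l : List Str} : y ∈ rem b l ↔ y ∈ l ∧ y ≠ b := by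
  simp [rem]

namespace St

/-- current leaves -/
def leaves : St → List Str
  | base _ τ => [τ]
  | nA _ _ t inf => t :: leaves inf
  | nB _ _ t inf b fin => t :: (rem b (leaves inf) ++ leaves fin)

/-- replace a leaf -/
def repl (τ ρ : Str) : St → St
  | base e x => base e (rr τ ρ x)
  | nA e n t inf => nA e n (rr τ ρ t) (repl τ ρ inf)
  | nB e n t inf b fin =>
      nB e n (rr τ ρ t) (if τ = b then inf else repl τ ρ inf) b (repl τ ρ fin)

/-- level -/
def lvl : St → ℕ
  | base e _ => e
  | nA e _ _ _ => e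
  | nB e _ _ _ _ _ => e

/-- size -/
def sz : St → ℕ
  | base _ _ => 1
  | nA _ _ _ inf => 1 + sz inf
  | nB _ _ _ inf _ fin => 1 + sz inf + sz fin

/-- well formed states -/
def WF : St → Prop
  | base _ _ => True
  | nA e _ t inf => WF inf ∧ lvl inf = e + 1 ∧ ∀ y ∈ leaves inf, Inc t y
  | nB e _ t inf b fin => WF inf ∧ lvl inf = e + 1 ∧ (∀ y ∈ leaves inf, Inc t y) ∧
      b ∈ leaves inf ∧ WF fin ∧ lvl fin = e + 1 ∧ ∀ y ∈ leaves fin, b <+: y

theorem length_le_sz (x : St) : (leaves x).length ≤ sz x := by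
  induction x with
  | base e τ => simp [leaves, sz]
  | nA e n t inf ih => simp only [leaves, sz, List.length_cons]; omega
  | nB e n t inf b fin ih1 ih2 =>
    simp only [leaves, sz, List.length_cons, List.length_append]
    have : (rem b (leaves inf)).length ≤ (leaves inf).length := List.length_filter_le _ _
    omega

theorem leaves_ne (x : St) : ∃ y, y ∈ leaves x := by
  cases x with
  | base e τ => exact ⟨τ, by simp [leaves]⟩
  | nA e n t inf => exact ⟨t, by simp [leaves]⟩
  | nB e n t inf b fin => exact ⟨t, by simp [leaves]⟩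

theorem anti {x : St} (h : WF x) : ∀ y ∈ leaves x, ∀ z ∈ leaves x, y ≠ z → Inc y z := by
  induction x with
  | base e τ => intro y hy z hz hne; simp [leaves] at hy hz; exact absurd (hy.trans hz.symm) hne
  | nA e n t inf ih =>
    obtain ⟨h1, -, h2⟩ := h
    intro y hy z hz hne
    simp only [leaves, List.mem_cons] at hy hz
    rcases hy with rfl | hy <;> rcases hz with rfl | hz
    · exact absurd rfl hne
    · exact h2 z hz
    · exact (h2 y hy).symm
    · exact ih h1 y hy z hz hne
  | nB e n t inf b fin ih1 ih2 =>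
    obtain ⟨h1, -, h2, h3, h4, -, h5⟩ := h
    intro y hy z hz hne
    simp only [leaves, List.mem_cons, List.mem_append, mem_rem] at hy hz
    rcases hy with rfl | hy | hy <;> rcases hz with rfl | hz | hz
    · exact absurd rfl hne
    · exact h2 z hz.1
    · exact (h2 b h3).mono List.prefix_rfl (h5 z hz)
    · exact (h2 y hy.1).symm
    · exact ih1 h1 y hy.1 z hz.1 hne
    · exact (ih1 h1 y hy.1 b h3 hy.2).mono List.prefix_rfl (h5 z hz)
    · exact ((h2 b h3).mono List.prefix_rfl (h5 y hy)).symm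
    · exact ((ih1 h1 z hz.1 b h3 hz.2).mono List.prefix_rfl (h5 y hy)).symm
    · exact ih2 h4 y hy z hz hne

theorem nodup {x : St} (h : WF x) : (leaves x).Nodup := by
  induction x with
  | base e τ => simp [leaves]
  | nA e n t inf ih =>
    obtain ⟨h1, -, h2⟩ := h
    simp only [leaves, List.nodup_cons]
    exact ⟨fun h3 => (h2 t h3).ne rfl, ih h1⟩
  | nB e n t inf b fin ih1 ih2 =>
    obtain ⟨h1, -, h2, h3, h4, -, h5⟩ := h
    simp only [leaves, List.nodup_cons, List.mem_append, mem_rem, List.nodup_append]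
    refine ⟨?_, (ih1 h1).filter _, ih2 h4, ?_⟩
    · rintro (h6 | h6)
      · exact (h2 t h6.1).ne rfl
      · exact (h2 b h3).2 (h5 t h6)
    · rintro y hy z hz rfl
      exact (anti h1 y hy.1 b h3 hy.2).2 (h5 y hz)

theorem lvl_repl (τ ρ : Str) (x : St) : lvl (repl τ ρ x) = lvl x := by
  cases x <;> rfl

theorem sz_repl (τ ρ : Str) (x : St) : sz (repl τ ρ x) = sz x := by
  induction x with
  | base e τ => rfl
  | nA e n t inf ih => simp only [repl, sz, ih]
  | nB e n t inf b fin ih1 ih2 =>
    simp only [repl, sz, ih2]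
    split_ifs
    · rfl
    · rw [ih1]

theorem rem_map {τ ρ b : Str} (h : τ <+: ρ) {l : List Str}
    (ha : ∀ y ∈ l, ∀ z ∈ l, y ≠ z → Inc y z) (hb : b ∈ l) (hne : τ ≠ b) :
    rem b (l.map (rr τ ρ)) = (rem b l).map (rr τ ρ) := by
  unfold rem
  rw [List.filter_map]
  congr 1
  apply List.filter_congr
  intro y hy
  simp only [Function.comp, ne_eq, decide_eq_decide, rr]
  split_ifs with h1
  · subst h1
    refine ⟨fun _ => hne, fun _ h2 => ?_⟩
    exact (ha y hy b hb hne).1 (h2 ▸ h)
  · exact Iff.rfl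

theorem rem_map_self (τ ρ : Str) (l : List Str) : (rem τ l).map (rr τ ρ) = rem τ l := by
  conv_rhs => rw [← List.map_id (rem τ l)]
  apply List.map_congr_left
  intro y hy
  simp [rr, (mem_rem.1 hy).2]

theorem leaves_repl {τ ρ : Str} (h : τ <+: ρ) {x : St} (hx : WF x) :
    leaves (repl τ ρ x) = (leaves x).map (rr τ ρ) := by
  induction x with
  | base e τ => rfl
  | nA e n t inf ih => simp only [repl, leaves, List.map_cons, ih hx.1]
  | nB e n t inf b fin ih1 ih2 =>
    obtain ⟨h1, -, h2, h3, h4, -, h5⟩ := hx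
    simp only [repl, leaves, List.map_cons, List.map_append, ih2 h4]
    split_ifs with h6
    · subst h6; rw [rem_map_self]
    · rw [ih1 h1, rem_map h (anti h1) h3 h6]

theorem wf_repl {τ ρ : Str} (h : τ <+: ρ) {x : St} (hx : WF x) : WF (repl τ ρ x) := by
  induction x with
  | base e τ => trivial
  | nA e n t inf ih =>
    obtain ⟨h1, h0, h2⟩ := hx
    refine ⟨ih h1, by rw [lvl_repl, h0], ?_⟩
    rw [leaves_repl h h1]
    intro y hy
    obtain ⟨z, hz, rfl⟩ := List.mem_map.1 hy
    exact (h2 z hz).mono (rr_pre h _) (rr_pre h _)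
  | nB e n t inf b fin ih1 ih2 =>
    obtain ⟨h1, h0, h2, h3, h4, h00, h5⟩ := hx
    have hf : ∀ y ∈ leaves (repl τ ρ fin), b <+: y := by
      rw [leaves_repl h h4]
      intro y hy
      obtain ⟨z, hz, rfl⟩ := List.mem_map.1 hy
      exact (h5 z hz).trans (rr_pre h _)
    simp only [repl]
    split_ifs with h6
    · exact ⟨h1, h0, fun y hy => (h2 y hy).mono (rr_pre h _) List.prefix_rfl, h3, ih2 h4,
        by rw [lvl_repl, h00], hf⟩
    · refine ⟨ih1 h1, by rw [lvl_repl, h0], ?_, ?_, ih2 h4, by rw [lvl_repl, h00], hf⟩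
      · rw [leaves_repl h h1]
        intro y hy
        obtain ⟨z, hz, rfl⟩ := List.mem_map.1 hy
        exact (h2 z hz).mono (rr_pre h _) (rr_pre h _)
      · rw [leaves_repl h h1]
        exact List.mem_map.2 ⟨b, h3, by simp [rr, Ne.symm h6]⟩

/-- extension of leaves from outside -/
def Stretch : St → St → Prop :=
  Relation.ReflTransGen fun x y => ∃ τ ρ, τ <+: ρ ∧ y = repl τ ρ x

/-- `l'` comes from `l` by extending each string -/
def Ext (l l' : List Str) : Prop := ∃ R : Str → Str, (∀ z, z <+: R z) ∧ l' = l.map R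

theorem Ext.refl (l : List Str) : Ext l l := ⟨id, fun _ => List.prefix_rfl, by simp⟩

theorem Ext.trans {a b c : List Str} (h1 : Ext a b) (h2 : Ext b c) : Ext a c := by
  obtain ⟨R, hR, rfl⟩ := h1
  obtain ⟨S, hS, rfl⟩ := h2
  exact ⟨S ∘ R, fun z => (hR z).trans (hS _), by simp⟩

theorem Ext.mem {a b : List Str} (h : Ext a b) {y : Str} (hy : y ∈ b) : ∃ z ∈ a, z <+: y := by
  obtain ⟨R, hR, rfl⟩ := h
  obtain ⟨z, hz, rfl⟩ := List.mem_map.1 hy
  exact ⟨z, hz, hR z⟩

theorem Stretch.refl (x : St) : Stretch x x := Relation.ReflTransGen.refl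

theorem Stretch.trans {x y z : St} (h1 : Stretch x y) (h2 : Stretch y z) : Stretch x z :=
  Relation.ReflTransGen.trans h1 h2

theorem Stretch.single {τ ρ : Str} (h : τ <+: ρ) (x : St) : Stretch x (repl τ ρ x) :=
  Relation.ReflTransGen.single ⟨τ, ρ, h, rfl⟩

theorem Stretch.wf {x y : St} (h : Stretch x y) (hx : WF x) :
    WF y ∧ Ext (leaves x) (leaves y) ∧ lvl y = lvl x ∧ sz y = sz x := by
  induction h with
  | refl => exact ⟨hx, Ext.refl _, rfl, rfl⟩
  | tail _ h2 ih =>
    obtain ⟨τ, ρ, h3, rfl⟩ := h2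
    obtain ⟨h4, h5, h6, h7⟩ := ih
    exact ⟨wf_repl h3 h4, h5.trans ⟨_, rr_pre h3, leaves_repl h3 h4⟩, by rw [lvl_repl, h6],
      by rw [sz_repl, h7]⟩

theorem Stretch.of_base {e : ℕ} {τ : Str} {y : St} (h : Stretch (base e τ) y) :
    ∃ ρ, τ <+: ρ ∧ y = base e ρ := by
  induction h with
  | refl => exact ⟨τ, List.prefix_rfl, rfl⟩
  | tail _ h2 ih =>
    obtain ⟨a, b, h3, rfl⟩ := h2
    obtain ⟨ρ, h4, rfl⟩ := ih
    exact ⟨_, h4.trans (rr_pre h3 ρ), rfl⟩

theorem Stretch.of_nA {e n : ℕ} {t : Str} {inf y : St} (h : Stretch (nA e n t inf) y) :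
    ∃ t' inf', t <+: t' ∧ Stretch inf inf' ∧ y = nA e n t' inf' := by
  induction h with
  | refl => exact ⟨t, inf, List.prefix_rfl, Stretch.refl _, rfl⟩
  | tail _ h2 ih =>
    obtain ⟨a, b, h3, rfl⟩ := h2
    obtain ⟨t', inf', h4, h5, rfl⟩ := ih
    exact ⟨_, _, h4.trans (rr_pre h3 t'), h5.trans (Stretch.single h3 _), rfl⟩

theorem Stretch.of_nB {e n : ℕ} {t b : Str} {inf fin y : St}
    (h : Stretch (nB e n t inf b fin) y) (hx : WF (nB e n t inf b fin)) :
    ∃ t' inf' fin', t <+: t' ∧ Stretch inf inf' ∧ Stretch fin fin' ∧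
      Ext (rem b (leaves inf)) (rem b (leaves inf')) ∧ y = nB e n t' inf' b fin' := by
  induction h with
  | refl => exact ⟨t, inf, fin, List.prefix_rfl, Stretch.refl _, Stretch.refl _, Ext.refl _, rfl⟩
  | tail h1 h2 ih =>
    obtain ⟨a, c, h3, rfl⟩ := h2
    obtain ⟨t', inf', fin', h4, h5, h6, h7, rfl⟩ := ih
    have hw := (Stretch.wf h1 hx).1
    by_cases hab : a = b
    · exact ⟨_, inf', _, h4.trans (rr_pre h3 t'), h5, h6.trans (Stretch.single h3 _), h7,
        by simp only [repl, if_pos hab]⟩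
    · refine ⟨_, repl a c inf', _, h4.trans (rr_pre h3 t'), h5.trans (Stretch.single h3 _),
        h6.trans (Stretch.single h3 _), h7.trans ⟨_, rr_pre h3, ?_⟩,
        by simp only [repl, if_neg hab]⟩
      rw [leaves_repl h3 hw.1, rem_map h3 (anti hw.1) hw.2.2.2.1 hab]

end St

/-- first element of a list with a property -/
def first (p : Str → Bool) (l : List Str) : Option Str := l[l.findIdx p]?

theorem first_some {p : Str → Bool} {l : List Str} {y : Str} (h : first p l = some y) :
    y ∈ l ∧ p y = true := by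
  unfold first at h
  obtain ⟨h1, h2⟩ := List.getElem?_eq_some_iff.1 h
  exact ⟨h2 ▸ List.getElem_mem h1, h2 ▸ List.findIdx_getElem⟩

theorem first_none {p : Str → Bool} {l : List Str} (h : first p l = none) :
    ∀ y ∈ l, p y = false := by
  unfold first at h
  rw [List.getElem?_eq_none_iff] at h
  have : l.findIdx p = l.length := le_antisymm List.findIdx_le_length h
  intro y hy
  simpa using (List.findIdx_eq_length.1 this) y hy

/-- candidate extensions of the leaves -/
def cands (s : ℕ) (l : List Str) : List Str :=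
  l.flatMap fun y => (List.range s).map fun m =>
    y ++ ((Encodable.decode (α := Str) m).getD []).drop y.length

theorem mem_cands {s : ℕ} {l : List Str} {ρ : Str} (h : ρ ∈ cands s l) : ∃ y ∈ l, y <+: ρ := by
  unfold cands at h
  obtain ⟨y, hy, h2⟩ := List.mem_flatMap.1 h
  obtain ⟨m, -, rfl⟩ := List.mem_map.1 h2
  exact ⟨y, hy, List.prefix_append _ _⟩

theorem cands_complete {s : ℕ} {l : List Str} {y ρ : Str} (hy : y ∈ l)
    (hs : Encodable.encode ρ < s) (hc : y <+: ρ ∨ ρ <+: y) : ∃ z ∈ cands s l, ρ <+: z := by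
  refine ⟨y ++ ρ.drop y.length, ?_, ?_⟩
  · unfold cands
    exact List.mem_flatMap.2 ⟨y, hy, List.mem_map.2 ⟨_, List.mem_range.2 hs, by simp⟩⟩
  · rcases hc with ⟨u, rfl⟩ | hc
    · simp
    · exact hc.trans (List.prefix_append _ _)

namespace St

variable (cov : ℕ → ℕ → ℕ → Str → Bool)

/-- one visit at stage `s` -/
def step (s : ℕ) : St → St
  | base e τ => nA e 0 (τ ++ [false]) (base (e + 1) (τ ++ [true]))
  | nA e n t inf =>
      match first (fun y => !cov e n s y) (leaves inf) with
      | some y => nB e n t inf y (base (e + 1) y)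
      | none => nA e (n + 1) t (step s inf)
  | nB e n t inf b fin =>
      match first (cov e n s) (cands s (leaves fin)) with
      | some ρ => nA e n t (repl b ρ inf)
      | none => nB e n t inf b (step s fin)

theorem step_spec (s : ℕ) {x : St} (hx : WF x) : WF (step cov s x) ∧ lvl (step cov s x) = lvl x ∧
    ∀ y ∈ leaves (step cov s x), ∃ z ∈ leaves x, z <+: y := by
  induction x with
  | base e τ =>
    refine ⟨⟨trivial, rfl, ?_⟩, rfl, ?_⟩
    · intro y hy
      simp only [leaves, List.mem_singleton] at hy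
      rw [hy]; exact inc_split τ
    · intro y hy
      simp only [step, leaves, List.mem_cons, List.not_mem_nil, or_false] at hy
      refine ⟨τ, by simp [leaves], ?_⟩
      rcases hy with rfl | rfl <;> exact List.prefix_append _ _
  | nA e n t inf ih =>
    obtain ⟨h1, h0, h2⟩ := hx
    simp only [step]
    rcases hf : first (fun y => !cov e n s y) (leaves inf) with _ | y
    · obtain ⟨i1, i2, i3⟩ := ih h1
      refine ⟨⟨i1, by rw [i2, h0], fun y hy => ?_⟩, rfl, fun y hy => ?_⟩
      · obtain ⟨z, hz, h3⟩ := i3 y hy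
        exact (h2 z hz).mono List.prefix_rfl h3
      · simp only [leaves, List.mem_cons] at hy ⊢
        rcases hy with rfl | hy
        · exact ⟨y, Or.inl rfl, List.prefix_rfl⟩
        · obtain ⟨z, hz, h3⟩ := i3 y hy
          exact ⟨z, Or.inr hz, h3⟩
    · have hy := (first_some hf).1
      refine ⟨⟨h1, h0, h2, hy, trivial, rfl, fun z hz => ?_⟩, rfl, fun z hz => ?_⟩
      · simp only [leaves, List.mem_singleton] at hz
        rw [hz]
      · simp only [leaves, List.mem_cons, List.mem_append, mem_rem, List.not_mem_nil,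
          or_false] at hz ⊢
        rcases hz with rfl | hz | rfl
        · exact ⟨z, Or.inl rfl, List.prefix_rfl⟩
        · exact ⟨z, Or.inr hz.1, List.prefix_rfl⟩
        · exact ⟨z, Or.inr hy, List.prefix_rfl⟩
  | nB e n t inf b fin ih1 ih2 =>
    obtain ⟨h1, h0, h2, h3, h4, h00, h5⟩ := hx
    simp only [step]
    rcases hf : first (cov e n s) (cands s (leaves fin)) with _ | ρ
    · obtain ⟨i1, i2, i3⟩ := ih2 h4
      refine ⟨⟨h1, h0, h2, h3, i1, by rw [i2, h00], fun y hy => ?_⟩, rfl, fun y hy => ?_⟩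
      · obtain ⟨z, hz, h6⟩ := i3 y hy
        exact (h5 z hz).trans h6
      · simp only [leaves, List.mem_cons, List.mem_append] at hy ⊢
        rcases hy with rfl | hy | hy
        · exact ⟨y, Or.inl rfl, List.prefix_rfl⟩
        · exact ⟨y, Or.inr (Or.inl hy), List.prefix_rfl⟩
        · obtain ⟨z, hz, h6⟩ := i3 y hy
          exact ⟨z, Or.inr (Or.inr hz), h6⟩
    · obtain ⟨u, hu, hρ⟩ := mem_cands (first_some hf).1
      have hb : b <+: ρ := (h5 u hu).trans hρ
      refine ⟨⟨wf_repl hb h1, by rw [lvl_repl, h0], fun y hy => ?_⟩, rfl, fun y hy => ?_⟩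
      · rw [leaves_repl hb h1] at hy
        obtain ⟨z, hz, rfl⟩ := List.mem_map.1 hy
        exact (h2 z hz).mono List.prefix_rfl (rr_pre hb _)
      · simp only [leaves, List.mem_cons, List.mem_append, mem_rem] at hy ⊢
        rcases hy with rfl | hy
        · exact ⟨y, Or.inl rfl, List.prefix_rfl⟩
        · rw [leaves_repl hb h1] at hy
          obtain ⟨z, hz, rfl⟩ := List.mem_map.1 hy
          by_cases hzb : z = b
          · exact ⟨u, Or.inr (Or.inr hu), by simpa [rr, hzb] using hρ⟩
          · exact ⟨z, Or.inr (Or.inl ⟨hz, hzb⟩), rr_pre hb _⟩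

/-- the global state -/
def glob : ℕ → St
  | 0 => base 0 []
  | s + 1 => step cov s (glob s)

theorem glob_wf (s : ℕ) : WF (glob cov s) := by
  induction s with
  | zero => trivial
  | succ s ih => exact (step_spec cov s ih).1

/-- the leaves at stage `s` -/
def L (s : ℕ) : List Str := leaves (glob cov s)

theorem L_ref {s s' : ℕ} (h : s ≤ s') : ∀ y ∈ L cov s', ∃ z ∈ L cov s, z <+: y := by
  induction s', h using Nat.le_induction with
  | base => exact fun y hy => ⟨y, hy, List.prefix_rfl⟩
  | succ s' _ ih =>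
    intro y hy
    obtain ⟨z, hz, h1⟩ := (step_spec cov s' (glob_wf cov s')).2.2 y hy
    obtain ⟨w, hw, h2⟩ := ih z hz
    exact ⟨w, hw, h2.trans h1⟩

/-- once a leaf extends `σ`, every later leaf above `σ` comes from a leaf above `σ`, and every
later leaf comparable with `σ` extends `σ` -/
theorem L_above {s s' : ℕ} (h : s ≤ s') {σ : Str} (h0 : ∃ τ ∈ L cov s, σ <+: τ) {y : Str}
    (hy : y ∈ L cov s') (hc : σ <+: y ∨ y <+: σ) : ∃ z ∈ L cov s, σ <+: z ∧ z <+: y := by
  obtain ⟨τ, hτ, h1⟩ := h0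
  obtain ⟨z, hz, h2⟩ := L_ref cov h y hy
  have : σ <+: z ∨ z <+: σ := by
    rcases hc with hc | hc
    · exact List.prefix_or_prefix_of_prefix hc h2
    · exact Or.inr (h2.trans hc)
  rcases this with h3 | h3
  · exact ⟨z, hz, h3, h2⟩
  · by_cases h4 : z = τ
    · exact ⟨z, hz, h4 ▸ h1, h2⟩
    · exact absurd (h3.trans h1) (anti (glob_wf cov s) z hz τ hτ h4).1

end St

end Pool.Agent.H917Z.HIF
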